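import Pool.Agent.H786Z.St3.CheckDefs

namespace Pool.Agent.H786Z.St3

set_option maxRecDepth 100000

theorem check_rows : allTo chkRow 96 = true := by decide +kernel

theorem check_sums :
    (Nat.ble (sumTo (fun l => sumTo (dig (ph l)) 256) 96) 20953457769514574 &&
      Nat.ble 11264147537152165 (sumTo (dig (ph 0)) 256) &&
      Nat.ble 17583583017158382 (sumTo (fun l => dig (pe l) 0) 96)) = true := by decide +kernel

end Pool.Agent.H786Z.St3
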