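import Pool.Agent.H786Z.St3.Data

namespace Pool.Agent.H786Z.St3

def sumTo (f : ℕ → ℕ) : ℕ → ℕ
  | 0 => 0
  | n + 1 => sumTo f n + f n

def allTo (f : ℕ → Bool) : ℕ → Bool
  | 0 => true
  | n + 1 => allTo f n && f n

theorem sumTo_eq (f : ℕ → ℕ) (n : ℕ) : sumTo f n = ∑ i ∈ Finset.range n, f i := by
  induction n with
  | zero => rfl
  | succ n ih => rw [sumTo, ih, Finset.sum_range_succ]

theorem allTo_spec {f : ℕ → Bool} {n : ℕ} (h : allTo f n = true) {i : ℕ} (hi : i < n) :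
    f i = true := by
  induction n with
  | zero => omega
  | succ n ih =>
    rw [allTo, Bool.and_eq_true] at h
    rcases Nat.lt_succ_iff_lt_or_eq.1 hi with h1 | rfl
    · exact ih h.1 h1
    · exact h.2

/-- Digit `r` in base `2 ^ 128`. -/
def dig (n r : ℕ) : ℕ := (n >>> (128 * r)) % 2 ^ 128

def cn : ℕ → ℕ
  | 0 => 2 ^ 56
  | i + 1 => cn i * (2 * (2 * i + 1)) * 161 / ((i + 2) * 1000)

def xin : ℕ := 2 ^ 56 * 1000 / 161

def rowQ (ph pe : ℕ → ℕ) (l : ℕ) : ℕ :=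
  xin * (ph (l + 1) + cn (l + 1)) +
    sumTo (fun j => cn (l - j) * ph j + ph (l - j) * pe j) l

def ph (i : ℕ) : ℕ := dataH.getD i 0 % 2 ^ (128 * 256)
def pe (i : ℕ) : ℕ := dataE.getD i 0 % 2 ^ (128 * 256)

def chkDig (n q : ℕ) : Bool :=
  allTo (fun r => Nat.ble (dig n (r + 1) * (2 ^ 56 * 9702)) (1091 * dig q r)) 255

def chkRow (l : ℕ) : Bool :=
  Nat.beq (dig (ph l) 0) 0 && chkDig (ph l) (rowQ ph pe l) &&
  Nat.ble (rowQ (fun _ => 2 ^ 56) (fun _ => 2 ^ 56) l) (2 ^ 127) &&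
  Nat.ble (sumTo (dig (ph l)) 256) (2 ^ 56) && Nat.ble (sumTo (dig (pe l)) 256) (2 ^ 56) &&
  allTo (fun s => Nat.ble (dig (pe l) s * 1091) (dig (ph l) s * 1091 + dig (pe l) (s + 1) * 1000))
    256

end Pool.Agent.H786Z.St3
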