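import Mathlib

open Finset PowerSeries

namespace Pool.Agent.H786Z.St3

/-- Upper bound for the number of preimages of a word under the stack-sorting map. -/
def F (w : List ℕ) : ℕ :=
  if h : w = [] then 1 else
    if ∀ x ∈ w.dropLast, x ≤ w.getLast h then
      ∑ k ∈ range (w.dropLast.length + 1), F (w.dropLast.take k) * F (w.dropLast.drop k)
    else 0
termination_by w.length
decreasing_by
  all_goals
    have := List.length_pos_iff.2 h
    simp only [List.length_take, List.length_drop, List.length_dropLast]
    omega

def spl (u : List ℕ) : ℕ := ∑ k ∈ range (u.length + 1), F (u.take k) * F (u.drop k)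

theorem F_nil : F [] = 1 := by rw [F]; simp

theorem F_concat (u : List ℕ) (z : ℕ) :
    F (u ++ [z]) = if ∀ x ∈ u, x ≤ z then spl u else 0 := by
  rw [F]
  simp [spl]

theorem F_pat (n : ℕ) : ∀ l : List (ℕ × ℕ), l.length = n →
    l.Pairwise (fun a b => a.1 ≤ b.1 ↔ a.2 ≤ b.2) → F (l.map Prod.fst) = F (l.map Prod.snd) := by
  induction n using Nat.strong_induction_on with
  | _ n ih =>
    intro l hl hp
    rcases List.eq_nil_or_concat l with rfl | ⟨u, z, rfl⟩
    · rfl
    rw [List.concat_eq_append] at *
    rw [List.pairwise_append] at hp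
    simp only [List.map_append, List.map_cons, List.map_nil, F_concat]
    have h1 : (∀ x ∈ u.map Prod.fst, x ≤ z.1) ↔ ∀ x ∈ u.map Prod.snd, x ≤ z.2 := by
      simp only [List.forall_mem_map]
      exact forall₂_congr fun a ha => hp.2.2 a ha z (by simp)
    rw [if_congr h1 rfl rfl]
    congr 1
    unfold spl
    simp only [List.length_map, ← List.map_take, ← List.map_drop]
    simp only [List.length_append, List.length_singleton] at hl
    refine sum_congr rfl fun k _ => ?_
    rw [ih _ (by simp only [List.length_take]; omega) _ rfl (hp.1.sublist (List.take_sublist _ _)),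
      ih _ (by simp only [List.length_drop]; omega) _ rfl (hp.1.sublist (List.drop_sublist _ _))]

theorem F_map (σ : List ℕ) (φ : ℕ → ℕ) (hφ : StrictMono φ) (l N N' : ℕ) (h : ∀ x ∈ σ, x ≤ N)
    (h' : ∀ x ∈ σ, φ x ≤ N') :
    F (σ.map φ ++ List.replicate l N') = F (σ ++ List.replicate l N) := by
  have := F_pat _ (σ.map (fun x => (φ x, x)) ++ List.replicate l (N', N)) rfl (by
    rw [List.pairwise_append]
    refine ⟨?_, ?_, ?_⟩
    · rw [List.pairwise_map]
      exact List.pairwise_of_forall fun a b => hφ.le_iff_le
    · exact List.pairwise_replicate.2 (Or.inr (by simp))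
    · intro a ha b hb
      obtain ⟨x, hx, rfl⟩ := List.mem_map.1 ha
      rw [List.eq_of_mem_replicate hb]
      simp [h x hx, h' x hx])
  simpa [List.map_map, Function.comp_def] using this

theorem F_top (σ : List ℕ) (m l N : ℕ) (h : ∀ x ∈ σ, x ≤ m) (hm : m ≤ N) :
    F (σ ++ m :: List.replicate l N) = F (σ ++ List.replicate (l + 1) N) := by
  have := F_pat _ (σ.map (fun x => (x, x)) ++ (m, N) :: List.replicate l (N, N)) rfl (by
    rw [List.pairwise_append]
    refine ⟨?_, ?_, ?_⟩
    · rw [List.pairwise_map]
      exact List.pairwise_of_forall fun a b => Iff.rfl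
    · rw [List.pairwise_cons]
      refine ⟨fun b hb => ?_, List.pairwise_replicate.2 (Or.inr (by simp))⟩
      rw [List.eq_of_mem_replicate hb]
      simp [hm]
    · intro a ha b hb
      obtain ⟨x, hx, rfl⟩ := List.mem_map.1 ha
      rcases List.mem_cons.1 hb with rfl | hb
      · simp [h x hx, (h x hx).trans hm]
      · rw [List.eq_of_mem_replicate hb])
  simpa [List.map_map, Function.comp_def, List.replicate_succ] using this

theorem sum_split {M : Type*} [AddCommMonoid M] (f : List ℕ → List ℕ → M) (u v : List ℕ) (e : ℕ) :
    ∑ k ∈ range ((u ++ v).length + e), f ((u ++ v).take k) ((u ++ v).drop k) =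
      ∑ k ∈ range u.length, f (u.take k) (u.drop k ++ v) +
        ∑ k ∈ range (v.length + e), f (u ++ v.take k) (v.drop k) := by
  rw [List.length_append, add_assoc, sum_range_add]
  congr 1
  · refine sum_congr rfl fun k hk => ?_
    have := mem_range.1 hk
    rw [List.take_append_of_le_length this.le, List.drop_append_of_le_length this.le]
  · refine sum_congr rfl fun k _ => ?_
    rw [List.take_length_add_append, List.drop_length_add_append]

/-- Generating series over the length of an appended increasing tail. -/
noncomputable def ser (N : ℕ) (σ : List ℕ) : ℤ⟦X⟧ :=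
  PowerSeries.mk fun l => (F (σ ++ List.replicate l N) : ℤ)

theorem ser_rec (N : ℕ) (σ : List ℕ) (h : ∀ x ∈ σ, x ≤ N) :
    ser N σ = C (F σ : ℤ) + X * (∑ k ∈ range σ.length, C (F (σ.take k) : ℤ) * ser N (σ.drop k) +
      ser N σ * ser N []) := by
  ext l
  cases l with
  | zero => simp [ser]
  | succ l =>
    rw [map_add, coeff_succ_X_mul, coeff_C, if_neg (Nat.succ_ne_zero l), zero_add, map_add, map_sum,
      coeff_mul, Nat.sum_antidiagonal_eq_sum_range_succ_mk]
    simp only [coeff_C_mul, ser, coeff_mk]
    rw [List.replicate_succ', ← List.append_assoc, F_concat, if_pos (by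
      intro x hx
      rcases List.mem_append.1 hx with hx | hx
      · exact h x hx
      · exact (List.eq_of_mem_replicate hx).le), spl, sum_split (fun a b => F a * F b)]
    push_cast
    congr 1
    rw [List.length_replicate]
    refine sum_congr rfl fun k hk => ?_
    have := mem_range.1 hk
    rw [List.take_replicate, List.drop_replicate, min_eq_left (by omega), List.nil_append]

theorem F_bad (A : List ℕ) (m : ℕ) (B : List ℕ) (hB : B ≠ []) (h : ∀ x ∈ B, x < m) :
    F (A ++ m :: B) = 0 := by
  rcases List.eq_nil_or_concat B with rfl | ⟨u, z, rfl⟩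
  · exact absurd rfl hB
  rw [List.concat_eq_append] at *
  rw [show A ++ m :: (u ++ [z]) = (A ++ m :: u) ++ [z] by simp, F_concat, if_neg]
  intro h1
  have := h1 m (by simp)
  have := h z (by simp)
  omega

theorem ser_decomp (N m : ℕ) (B : List ℕ) (hB : B ≠ []) (hBm : ∀ x ∈ B, x < m) (hm : m ≤ N)
    (n : ℕ) : ∀ A : List ℕ, A.length = n → (∀ x ∈ A, x ≤ N) →
    ser N (A ++ m :: B) = X * ser N (A ++ [m]) * ser N B := by
  induction n using Nat.strong_induction_on with
  | _ n ih =>
    intro A hA hAN
    have h1 := ser_rec N (A ++ [m]) (by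
      intro x hx
      rcases List.mem_append.1 hx with hx | hx
      · exact hAN x hx
      · rw [List.mem_singleton.1 hx]; exact hm)
    have h2 := ser_rec N ((A ++ [m]) ++ B) (by
      intro x hx
      rcases List.mem_append.1 hx with hx | hx
      · rcases List.mem_append.1 hx with hx | hx
        · exact hAN x hx
        · rw [List.mem_singleton.1 hx]; exact hm
      · exact (hBm x hx).le.trans hm)
    have e : A ++ [m] ++ B = A ++ m :: B := by simp
    rw [← add_zero (A ++ [m] ++ B).length,
      sum_split (fun a b => C (F a : ℤ) * ser N b), add_zero] at h2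
    obtain ⟨b, hb⟩ : ∃ b, B.length = b + 1 :=
      ⟨B.length - 1, by have := List.length_pos_iff.2 hB; omega⟩
    have h3 : ∑ k ∈ range B.length, C (F (A ++ [m] ++ B.take k) : ℤ) * ser N (B.drop k) =
        C (F (A ++ [m]) : ℤ) * ser N B := by
      rw [hb, sum_range_succ', sum_eq_zero, zero_add]
      · simp
      · intro k _
        rw [List.append_assoc, List.singleton_append, F_bad]
        · simp
        · rw [Ne, List.take_eq_nil_iff]
          simp [hB]
        · exact fun x hx => hBm x (List.mem_of_mem_take hx)
    rw [h3, e, F_bad A m B hB hBm] at h2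
    have hl : (A ++ [m]).length = A.length + 1 := by simp
    rw [hl, sum_range_succ'] at h1 h2
    have h4 : ∑ k ∈ range A.length, C (F ((A ++ [m]).take (k + 1)) : ℤ) *
        ser N ((A ++ [m]).drop (k + 1) ++ B) =
        X * (∑ k ∈ range A.length, C (F ((A ++ [m]).take (k + 1)) : ℤ) *
          ser N ((A ++ [m]).drop (k + 1))) * ser N B := by
      rw [mul_sum, sum_mul]
      refine sum_congr rfl fun k hk => ?_
      have hk' := mem_range.1 hk
      rw [List.drop_append_of_le_length hk', List.append_assoc, List.singleton_append,
        ih _ (by rw [List.length_drop]; omega) _ rfl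
          (fun x hx => hAN x (List.mem_of_mem_drop hx))]
      ring
    rw [h4] at h2
    simp only [List.take_zero, List.drop_zero, F_nil, Nat.cast_one, map_one, one_mul, e,
      Nat.cast_zero, map_zero, zero_add] at h1 h2
    have h5 : (1 - X * (1 + ser N [])) * (ser N (A ++ m :: B) - X * ser N (A ++ [m]) * ser N B)
        = 0 := by
      linear_combination h2 - X * ser N B * h1
    rcases mul_eq_zero.1 h5 with h6 | h6
    · have := congrArg constantCoeff h6
      simp at this
    · exact sub_eq_zero.1 h6

theorem F_decomp (N m : ℕ) (A B : List ℕ) (hB : B ≠ []) (hBm : ∀ x ∈ B, x < m) (hm : m ≤ N)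
    (hA : ∀ x ∈ A, x ≤ m) (l : ℕ) :
    F (A ++ m :: B ++ List.replicate l N) =
      ∑ j ∈ range l, F (A ++ List.replicate (l - j) N) * F (B ++ List.replicate j N) := by
  cases l with
  | zero => simpa using F_bad A m B hB hBm
  | succ l =>
    have h := congrArg (coeff (l + 1))
      (ser_decomp N m B hB hBm hm _ A rfl fun x hx => (hA x hx).trans hm)
    rw [mul_assoc, coeff_succ_X_mul, mul_comm, coeff_mul,
      Nat.sum_antidiagonal_eq_sum_range_succ_mk] at h
    simp only [ser, coeff_mk] at h
    zify
    rw [h]
    refine sum_congr rfl fun j hj => ?_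
    have := mem_range.1 hj
    rw [List.append_assoc, List.singleton_append, F_top A m _ N hA hm, mul_comm,
      show l - j + 1 = l + 1 - j by omega]

theorem F_replicate (N n : ℕ) : F (List.replicate n N) = catalan n := by
  induction n using Nat.strong_induction_on with
  | _ n ih =>
    cases n with
    | zero => simp [F_nil]
    | succ n =>
      rw [List.replicate_succ', F_concat, if_pos fun x hx => (List.eq_of_mem_replicate hx).le,
        catalan_succ', Nat.sum_antidiagonal_eq_sum_range_succ_mk, spl, List.length_replicate]
      refine sum_congr rfl fun k hk => ?_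
      have := mem_range.1 hk
      rw [List.take_replicate, List.drop_replicate, min_eq_left (by omega), ih _ (by omega),
        ih _ (by omega)]

end Pool.Agent.H786Z.St3
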