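import Mathlib

open Finset ENNReal

namespace Pool.Agent.H786Z.St3

noncomputable def kap (x : ℝ≥0∞) (i : ℕ) : ℝ≥0∞ := x ^ i * catalan i

noncomputable def EE (ci : ℝ≥0∞) (h : ℕ → ℕ → ℝ≥0∞) (j s : ℕ) : ℝ≥0∞ :=
  ∑' u, h j (s + u) * ci ^ u

noncomputable def Phi (τ x xi ci : ℝ≥0∞) (h : ℕ → ℕ → ℝ≥0∞) (l : ℕ) : ℕ → ℝ≥0∞
  | 0 => 0
  | r + 1 => τ * (xi * (h (l + 1) r + if r = 0 then kap x (l + 1) else 0) +
      ∑ j ∈ range l, (kap x (l - j) * h j r +
        ∑ p ∈ antidiagonal r, h (l - j) p.1 * EE ci h j p.2))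

noncomputable def row (h : ℕ → ℕ → ℝ≥0∞) (l : ℕ) : ℝ≥0∞ := ∑' r, h l r

noncomputable def ev (h : ℕ → ℕ → ℝ≥0∞) : ℝ≥0∞ := ∑' l, row h l

theorem EE_mono (ci : ℝ≥0∞) {h h' : ℕ → ℕ → ℝ≥0∞} (H : ∀ l r, h l r ≤ h' l r) (j s : ℕ) :
    EE ci h j s ≤ EE ci h' j s :=
  ENNReal.tsum_le_tsum fun _ => mul_le_mul_left (H _ _) _

theorem Phi_mono (τ x xi ci : ℝ≥0∞) {h h' : ℕ → ℕ → ℝ≥0∞} (H : ∀ l r, h l r ≤ h' l r)
    (l r : ℕ) : Phi τ x xi ci h l r ≤ Phi τ x xi ci h' l r := by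
  cases r with
  | zero => exact le_rfl
  | succ r =>
    simp only [Phi]
    have := EE_mono ci H
    gcongr <;> first | exact H _ _ | exact this _ _

theorem tsum_antidiag (f : ℕ → ℕ → ℝ≥0∞) :
    ∑' n, ∑ p ∈ antidiagonal n, f p.1 p.2 = ∑' i, ∑' j, f i j := by
  rw [← ENNReal.tsum_prod, ← HasAntidiagonal.sigmaAntidiagonalEquivProd.tsum_eq,
    ENNReal.tsum_sigma']
  refine tsum_congr fun n => ?_
  rw [← Finset.tsum_subtype]
  rfl

theorem tsum_zero_add (f : ℕ → ℝ≥0∞) : ∑' n, f n = f 0 + ∑' n, f (n + 1) :=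
  tsum_eq_zero_add' ENNReal.summable

theorem tsum_range (f : ℕ → ℕ → ℝ≥0∞) :
    ∑' l, ∑ j ∈ range l, f (l - j) j = ∑' j, ∑' i, f (i + 1) j := by
  rw [tsum_zero_add, range_zero, sum_empty, zero_add, ← tsum_antidiag fun j i => f (i + 1) j]
  refine tsum_congr fun n => ?_
  rw [Nat.sum_antidiagonal_eq_sum_range_succ_mk]
  refine sum_congr rfl fun j hj => ?_
  have := mem_range.1 hj
  rw [show n + 1 - j = n - j + 1 by omega]

theorem tsum_fin {ι : Type*} (S : Finset ι) (f : ι → ℕ → ℝ≥0∞) :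
    ∑' n, ∑ i ∈ S, f i n = ∑ i ∈ S, ∑' n, f i n :=
  Summable.tsum_finsetSum fun _ _ => ENNReal.summable

theorem row_Phi (τ x xi ci : ℝ≥0∞) (h : ℕ → ℕ → ℝ≥0∞) (l : ℕ) :
    row (Phi τ x xi ci h) l = τ * (xi * (row h (l + 1) + kap x (l + 1)) +
      ∑ j ∈ range l, (kap x (l - j) * row h j + row h (l - j) * row (EE ci h) j)) := by
  unfold row
  rw [tsum_zero_add]
  simp only [Phi, zero_add]
  rw [ENNReal.tsum_mul_left, ENNReal.tsum_add, ENNReal.tsum_mul_left, ENNReal.tsum_add,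
    tsum_ite_eq, tsum_fin]
  congr 2
  refine sum_congr rfl fun j _ => ?_
  rw [ENNReal.tsum_add, ENNReal.tsum_mul_left,
    tsum_antidiag fun a b => h (l - j) a * EE ci h j b]
  simp only [ENNReal.tsum_mul_left, ENNReal.tsum_mul_right]

theorem ev_Phi (τ x xi ci : ℝ≥0∞) (h : ℕ → ℕ → ℝ≥0∞) :
    ev (Phi τ x xi ci h) = τ * (xi * ((∑' l, row h (l + 1)) + ∑' l, kap x (l + 1)) +
      ((∑' l, kap x (l + 1)) * ev h + (∑' l, row h (l + 1)) * ev (EE ci h))) := by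
  unfold ev
  simp only [row_Phi]
  rw [ENNReal.tsum_mul_left, ENNReal.tsum_add, ENNReal.tsum_mul_left, ENNReal.tsum_add,
    tsum_range fun a j => kap x a * row h j + row h a * row (EE ci h) j]
  simp only [ENNReal.tsum_add, ENNReal.tsum_mul_left, ENNReal.tsum_mul_right]

theorem geom_id {d ci : ℝ≥0∞} (hd : d + ci = 1) (n : ℕ) :
    d * ∑ u ∈ range (n + 1), ci ^ u + ci * ci ^ n = 1 := by
  induction n with
  | zero => simpa using hd
  | succ n ih =>
    rw [sum_range_succ, mul_add, add_assoc, ← add_mul, hd, one_mul, pow_succ', ih]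

theorem row_EE {d ci : ℝ≥0∞} (hd : d + ci = 1) (h : ℕ → ℕ → ℝ≥0∞) (j : ℕ) :
    d * row (EE ci h) j + ci * EE ci h j 0 = row h j := by
  unfold row EE
  rw [← tsum_antidiag fun s u => h j (s + u) * ci ^ u, ← ENNReal.tsum_mul_left,
    ← ENNReal.tsum_mul_left, ← ENNReal.tsum_add]
  refine tsum_congr fun n => ?_
  have e : ∑ p ∈ antidiagonal n, h j (p.1 + p.2) * ci ^ p.2 =
      h j n * ∑ u ∈ range (n + 1), ci ^ u := by
    rw [← Nat.sum_antidiagonal_swap, Nat.sum_antidiagonal_eq_sum_range_succ_mk, mul_sum]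
    refine sum_congr rfl fun u hu => ?_
    have := mem_range.1 hu
    simp only [Prod.fst_swap, Prod.snd_swap]
    rw [show n - u + u = n by omega]
  rw [e, zero_add]
  calc _ = h j n * (d * ∑ u ∈ range (n + 1), ci ^ u + ci * ci ^ n) := by ring
    _ = _ := by rw [geom_id hd, mul_one]

theorem EE_succ (ci : ℝ≥0∞) (h : ℕ → ℕ → ℝ≥0∞) (j s : ℕ) :
    EE ci h j s = h j s + ci * EE ci h j (s + 1) := by
  unfold EE
  rw [tsum_zero_add, ← ENNReal.tsum_mul_left]
  simp only [add_zero, pow_zero, mul_one]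
  congr 1
  refine tsum_congr fun u => ?_
  rw [show s + (u + 1) = s + 1 + u by omega]
  ring

theorem kap_zero (x : ℝ≥0∞) : kap x 0 = 1 := by simp [kap]

theorem kap_succ (x : ℝ≥0∞) (n : ℕ) :
    kap x (n + 1) = x * ∑ p ∈ antidiagonal n, kap x p.1 * kap x p.2 := by
  unfold kap
  rw [catalan_succ']
  push_cast
  rw [mul_sum, mul_sum]
  refine sum_congr rfl fun p hp => ?_
  rw [← mem_antidiagonal.1 hp]
  ring

theorem kap_sum_le {x C : ℝ≥0∞} (hC : x * ((1 + C) * (1 + C)) ≤ C) : ∑' i, kap x (i + 1) ≤ C := by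
  rw [ENNReal.tsum_eq_iSup_nat]
  refine iSup_le fun n => ?_
  induction n with
  | zero => simp
  | succ n ih =>
    simp only [kap_succ]
    rw [← mul_sum]
    refine le_trans (mul_le_mul_right ?_ x) hC
    let g : ℕ → ℝ≥0∞ := fun i => if i < n + 1 then kap x i else 0
    have hg : ∑' i, g i ≤ 1 + C := by
      rw [tsum_eq_sum (s := range (n + 1)) fun i hi => if_neg (by simpa using hi),
        sum_congr rfl (g := kap x) fun i hi => if_pos (mem_range.1 hi), sum_range_succ', kap_zero,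
        add_comm]
      exact add_le_add_right ih 1
    calc ∑ i ∈ range (n + 1), ∑ p ∈ antidiagonal i, kap x p.1 * kap x p.2
        = ∑ i ∈ range (n + 1), ∑ p ∈ antidiagonal i, g p.1 * g p.2 := by
          refine sum_congr rfl fun i hi => sum_congr rfl fun p hp => ?_
          have h1 := mem_range.1 hi
          have h2 := mem_antidiagonal.1 hp
          simp only [g]
          rw [if_pos (by omega), if_pos (by omega)]
      _ ≤ ∑' i, ∑ p ∈ antidiagonal i, g p.1 * g p.2 := ENNReal.sum_le_tsum _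
      _ = (∑' i, g i) * ∑' i, g i := by
          rw [tsum_antidiag fun a b => g a * g b]
          simp only [ENNReal.tsum_mul_left, ENNReal.tsum_mul_right]
      _ ≤ _ := mul_le_mul' hg hg

theorem step {τ x xi ci d U L1 L2 A0 Eb C : ℝ≥0∞} {H0 h : ℕ → ℕ → ℝ≥0∞} (hd : d + ci = 1)
    (hd0 : d ≠ 0) (hU : U ≠ ⊤) (hC : x * ((1 + C) * (1 + C)) ≤ C) (h1 : L1 ≤ row H0 0)
    (h2 : L2 ≤ ∑' j, EE ci H0 j 0) (hA : U ≤ L1 + A0) (hE : U ≤ ci * L2 + d * Eb)
    (hfin : τ * (xi * (A0 + C) + (C * U + A0 * Eb)) ≤ U) (H : ∀ l r, H0 l r ≤ h l r)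
    (hh : ev h ≤ U) : ev (Phi τ x xi ci h) ≤ U := by
  have hK := kap_sum_le hC
  have hdt : d ≠ ⊤ := by
    rintro rfl
    simp at hd
  have a1 : ∑' l, row h (l + 1) ≤ A0 := by
    have e : ev h = row h 0 + ∑' l, row h (l + 1) := tsum_zero_add _
    have hfin : row h 0 ≠ ⊤ := ne_top_of_le_ne_top hU (le_trans (e ▸ le_self_add) hh)
    rw [← ENNReal.add_le_add_iff_left hfin, ← e]
    refine hh.trans (hA.trans (add_le_add_left (h1.trans ?_) _))
    exact ENNReal.tsum_le_tsum fun r => H 0 r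
  have a2 : ev (EE ci h) ≤ Eb := by
    have e : ev h = ci * (∑' j, EE ci h j 0) + d * ev (EE ci h) := by
      unfold ev
      rw [← ENNReal.tsum_mul_left, ← ENNReal.tsum_mul_left, ← ENNReal.tsum_add]
      refine tsum_congr fun j => ?_
      rw [add_comm, row_EE hd]
    have hfin : ci * (∑' j, EE ci h j 0) ≠ ⊤ :=
      ne_top_of_le_ne_top hU (le_trans (e ▸ le_self_add) hh)
    rw [← ENNReal.mul_le_mul_iff_right hd0 hdt, ← ENNReal.add_le_add_iff_left hfin, ← e]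
    refine hh.trans (hE.trans (add_le_add_left (mul_le_mul_right (h2.trans ?_) _) _))
    exact ENNReal.tsum_le_tsum fun j => EE_mono ci H j 0
  rw [ev_Phi]
  refine le_trans ?_ hfin
  gcongr

end Pool.Agent.H786Z.St3
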