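import Pool.Agent.H786Z.St3.Check
import Pool.Agent.H786Z.St3.Oper

open Finset ENNReal Polynomial NNReal

namespace Pool.Agent.H786Z.St3

theorem digit_eval (B : ℕ) (k : ℕ) : ∀ p : ℕ[X], (∀ i, p.coeff i < B) →
    p.eval B / B ^ k % B = p.coeff k := by
  induction k with
  | zero =>
    intro p hp
    conv_lhs => rw [← divX_mul_X_add p]
    rw [eval_add, eval_mul, eval_X, eval_C, pow_zero, Nat.div_one, Nat.mul_add_mod_self_right,
      Nat.mod_eq_of_lt (hp 0)]
  | succ k ih =>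
    intro p hp
    have hB : 0 < B := lt_of_le_of_lt (Nat.zero_le _) (hp 0)
    have e : p.eval B / B = (divX p).eval B := by
      conv_lhs => rw [← divX_mul_X_add p]
      rw [eval_add, eval_mul, eval_X, eval_C, add_comm, Nat.add_mul_div_right _ _ hB,
        Nat.div_eq_of_lt (hp 0), zero_add]
    rw [pow_succ', ← Nat.div_div_eq_div_mul, e, ih _ fun i => by rw [coeff_divX]; exact hp _,
      coeff_divX]

theorem coeff_le_eval_one (p : ℕ[X]) (k : ℕ) : p.coeff k ≤ p.eval 1 := by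
  rw [eval_eq_sum, Polynomial.sum]
  simp only [one_pow, mul_one]
  by_cases h : k ∈ p.support
  · exact single_le_sum (f := fun n => p.coeff n) (fun _ _ => Nat.zero_le _) h
  · rw [notMem_support_iff.1 h]; exact Nat.zero_le _

theorem sum_digits (B n R : ℕ) : ∑ r ∈ range R, n / B ^ r % B * B ^ r = n % B ^ R := by
  induction R with
  | zero => simp [Nat.mod_one]
  | succ R ih => rw [sum_range_succ, ih, Nat.mod_pow_succ, mul_comm]

def BB : ℕ := 2 ^ 128

attribute [local irreducible] ph pe dig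

theorem dig_eq (n r : ℕ) : dig n r = n / BB ^ r % BB := by
  rw [dig, Nat.shiftRight_eq_div_pow, pow_mul]; rfl

theorem dig_zero_of_lt {n r : ℕ} (hn : n < BB ^ 256) (hr : 256 ≤ r) : dig n r = 0 := by
  rw [dig_eq, Nat.div_eq_of_lt (hn.trans_le (Nat.pow_le_pow_right (by unfold BB; positivity) hr)),
    Nat.zero_mod]

theorem ph_lt (i : ℕ) : ph i < BB ^ 256 := by
  rw [ph, pow_mul]; exact Nat.mod_lt _ (Nat.pow_pos (by positivity))

theorem pe_lt (i : ℕ) : pe i < BB ^ 256 := by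
  rw [pe, pow_mul]; exact Nat.mod_lt _ (Nat.pow_pos (by positivity))

theorem ph_zero {i : ℕ} (hi : 96 ≤ i) : ph i = 0 := by
  rw [ph, List.getD_eq_default _ _ (show dataH.length ≤ i from hi), Nat.zero_mod]

theorem pe_zero {i : ℕ} (hi : 96 ≤ i) : pe i = 0 := by
  rw [pe, List.getD_eq_default _ _ (show dataE.length ≤ i from hi), Nat.zero_mod]

theorem dig_zero (r : ℕ) : dig 0 r = 0 := by rw [dig_eq]; simp

noncomputable def toP (n : ℕ) : ℕ[X] := ∑ r ∈ range 256, monomial r (dig n r)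

theorem coeff_toP {n : ℕ} (hn : n < BB ^ 256) (r : ℕ) : (toP n).coeff r = dig n r := by
  rw [toP, finsetSum_coeff]
  simp only [coeff_monomial, sum_ite_eq', mem_range]
  split_ifs with h
  · rfl
  · exact (dig_zero_of_lt hn (by omega)).symm

theorem eval_toP {n : ℕ} (hn : n < BB ^ 256) : (toP n).eval BB = n := by
  rw [toP, eval_finsetSum]
  simp only [eval_monomial, dig_eq]
  rw [sum_digits, Nat.mod_eq_of_lt hn]

theorem eval_one_toP (n : ℕ) : (toP n).eval 1 = sumTo (dig n) 256 := by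
  rw [toP, eval_finsetSum, sumTo_eq]
  simp only [eval_monomial, one_pow, mul_one]

noncomputable def rowP (l : ℕ) : ℕ[X] :=
  C xin * (toP (ph (l + 1)) + C (cn (l + 1))) +
    ∑ j ∈ range l, (C (cn (l - j)) * toP (ph j) + toP (ph (l - j)) * toP (pe j))

theorem eval_rowP (l b : ℕ) : (rowP l).eval b =
    rowQ (fun i => (toP (ph i)).eval b) (fun i => (toP (pe i)).eval b) l := by
  unfold rowP rowQ
  generalize xin = y
  rw [sumTo_eq]
  simp only [eval_add, eval_mul, eval_C, eval_finsetSum]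

theorem rowQ_mono {f g f' g' : ℕ → ℕ} (hf : ∀ i, f i ≤ f' i) (hg : ∀ i, g i ≤ g' i) (l : ℕ) :
    rowQ f g l ≤ rowQ f' g' l := by
  unfold rowQ
  rw [sumTo_eq, sumTo_eq]
  gcongr <;> first | exact hf _ | exact hg _

theorem coeff_rowP (l r : ℕ) : (rowP l).coeff r =
    xin * (dig (ph (l + 1)) r + if r = 0 then cn (l + 1) else 0) +
      ∑ j ∈ range l, (cn (l - j) * dig (ph j) r +
        ∑ p ∈ antidiagonal r, dig (ph (l - j)) p.1 * dig (pe j) p.2) := by
  unfold rowP
  generalize xin = y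
  rw [coeff_add, coeff_C_mul, coeff_add, coeff_C, finsetSum_coeff, coeff_toP (ph_lt _)]
  refine congrArg₂ (· + ·) rfl (sum_congr rfl fun j _ => ?_)
  rw [coeff_add, coeff_C_mul, coeff_mul, coeff_toP (ph_lt _)]
  simp only [coeff_toP (ph_lt _), coeff_toP (pe_lt _)]

theorem row_facts {l : ℕ} (hl : l < 96) :
    dig (ph l) 0 = 0 ∧ chkDig (ph l) (rowQ ph pe l) = true ∧
    rowQ (fun _ => 2 ^ 56) (fun _ => 2 ^ 56) l ≤ 2 ^ 127 ∧
    sumTo (dig (ph l)) 256 ≤ 2 ^ 56 ∧ sumTo (dig (pe l)) 256 ≤ 2 ^ 56 ∧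
    ∀ s < 256, dig (pe l) s * 1091 ≤ dig (ph l) s * 1091 + dig (pe l) (s + 1) * 1000 := by
  have h := allTo_spec check_rows hl
  simp only [chkRow, Bool.and_eq_true, Nat.beq_eq, Nat.ble_eq] at h
  obtain ⟨⟨⟨⟨⟨h1, h2⟩, h3⟩, h4⟩, h5⟩, h6⟩ := h
  exact ⟨h1, h2, h3, h4, h5, fun s hs => Nat.ble_eq.mp (allTo_spec h6 hs)⟩

theorem sum_ph_le (l : ℕ) : (toP (ph l)).eval 1 ≤ 2 ^ 56 := by
  rw [eval_one_toP]
  by_cases hl : l < 96
  · exact (row_facts hl).2.2.2.1
  · rw [ph_zero (by omega), sumTo_eq]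
    simp [dig_zero]

theorem sum_pe_le (l : ℕ) : (toP (pe l)).eval 1 ≤ 2 ^ 56 := by
  rw [eval_one_toP]
  by_cases hl : l < 96
  · exact (row_facts hl).2.2.2.2.1
  · rw [pe_zero (by omega), sumTo_eq]
    simp [dig_zero]

theorem main_ineq (l r : ℕ) :
    dig (ph l) (r + 1) * (2 ^ 56 * 9702) ≤ 1091 * (rowP l).coeff r := by
  by_cases hl : l < 96
  · by_cases hr : r < 255
    · obtain ⟨-, h2, h3, -⟩ := row_facts hl
      have h4 := Nat.ble_eq.mp (allTo_spec h2 hr)
      have e : rowQ ph pe l = (rowP l).eval BB := by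
        rw [eval_rowP]
        simp only [eval_toP (ph_lt _), eval_toP (pe_lt _)]
      rwa [e, dig_eq ((rowP l).eval BB), digit_eval BB r _ fun i => ?_] at h4
      refine (coeff_le_eval_one _ i).trans_lt ?_
      rw [eval_rowP]
      refine ((rowQ_mono sum_ph_le sum_pe_le l).trans h3).trans_lt ?_
      unfold BB
      norm_num
    · rw [dig_zero_of_lt (ph_lt l) (by omega), zero_mul]
      exact Nat.zero_le _
  · rw [ph_zero (by omega), dig_zero, zero_mul]
    exact Nat.zero_le _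

noncomputable def tt : ℝ≥0 := 1000 / 9702
noncomputable def xx : ℝ≥0 := 161 / 1000
noncomputable def cc : ℝ≥0 := 1091 / 1000
noncomputable def xi : ℝ≥0 := 1000 / 161
noncomputable def ci : ℝ≥0 := 1000 / 1091
noncomputable def dd : ℝ≥0 := 91 / 1091
noncomputable def sc : ℝ≥0 := 1 / 2 ^ 56
noncomputable def UU : ℝ≥0 := 58259 / 200000

noncomputable def H0 (l r : ℕ) : ℝ≥0∞ := ((dig (ph l) r * sc : ℝ≥0) : ℝ≥0∞)

theorem catalan_ratio (i : ℕ) : (i + 2) * catalan (i + 1) = 2 * (2 * i + 1) * catalan i := by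
  have h1 := succ_mul_catalan_eq_centralBinom (i + 1)
  have h2 := succ_mul_catalan_eq_centralBinom i
  have h3 := Nat.succ_mul_centralBinom_succ i
  apply Nat.eq_of_mul_eq_mul_left (Nat.succ_pos i)
  rw [← h1, ← h2] at h3
  simp only [Nat.succ_eq_add_one] at *
  linarith

theorem cn_le_real (i : ℕ) : (cn i : ℝ) ≤ 2 ^ 56 * ((161 / 1000) ^ i * catalan i) := by
  induction i with
  | zero => simp only [cn, pow_zero, catalan_zero]; norm_num
  | succ i ih =>
    rw [cn]
    refine Nat.cast_div_le.trans ?_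
    have h : ((i : ℝ) + 2) * catalan (i + 1) = 2 * (2 * i + 1) * catalan i := by
      exact_mod_cast catalan_ratio i
    push_cast
    rw [div_le_iff₀ (by positivity)]
    calc (cn i : ℝ) * (2 * (2 * i + 1)) * 161
        ≤ 2 ^ 56 * ((161 / 1000) ^ i * catalan i) * (2 * (2 * i + 1)) * 161 := by gcongr
      _ = 2 ^ 56 * (161 / 1000) ^ i * 161 * (2 * (2 * i + 1) * catalan i) := by ring
      _ = _ := by rw [← h]; ring

theorem cn_le (i : ℕ) : ((cn i * sc : ℝ≥0) : ℝ≥0∞) ≤ kap xx i := by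
  have : (cn i * sc : ℝ≥0) ≤ xx ^ i * catalan i := by
    rw [← NNReal.coe_le_coe]
    have := cn_le_real i
    simp only [sc, xx]
    push_cast
    rw [mul_one_div, div_le_iff₀ (by positivity)]
    linarith
  rw [kap]
  exact_mod_cast this

theorem xin_le : ((xin * sc : ℝ≥0) : ℝ≥0∞) ≤ xi := by
  rw [ENNReal.coe_le_coe, ← NNReal.coe_le_coe]
  simp only [sc, xi, xin]
  push_cast
  norm_num

theorem pe_le (j s : ℕ) : ((dig (pe j) s * sc : ℝ≥0) : ℝ≥0∞) ≤ EE ci H0 j s := by
  by_cases hj : j < 96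
  · have key : ∀ k s, s + k = 256 → ((dig (pe j) s * sc : ℝ≥0) : ℝ≥0∞) ≤ EE ci H0 j s := by
      intro k
      induction k with
      | zero =>
        intro s hs
        rw [dig_zero_of_lt (pe_lt j) (by omega)]
        simp
      | succ k ih =>
        intro s hs
        rw [EE_succ]
        refine le_trans ?_ (add_le_add_right (mul_le_mul_right (ih (s + 1) (by omega)) _) _)
        have h := (row_facts hj).2.2.2.2.2 s (by omega)
        have h' : (dig (pe j) s : ℝ) * 1091 ≤ dig (ph j) s * 1091 + dig (pe j) (s + 1) * 1000 := by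
          exact_mod_cast h
        rw [H0, ← ENNReal.coe_mul, ← ENNReal.coe_add, ENNReal.coe_le_coe, ← NNReal.coe_le_coe]
        simp only [ci]
        push_cast
        have := sc.2
        nlinarith
    by_cases hs : s ≤ 256
    · exact key (256 - s) s (by omega)
    · rw [dig_zero_of_lt (pe_lt j) (by omega)]
      simp
  · rw [pe_zero (by omega), dig_zero]
    simp

theorem H0_sub (l r : ℕ) : H0 l r ≤ Phi ((tt : ℝ≥0∞) * cc) xx xi ci H0 l r := by
  cases r with
  | zero =>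
    by_cases hl : l < 96
    · rw [H0, (row_facts hl).1]; simp
    · rw [H0, ph_zero (by omega), dig_zero]; simp
  | succ r =>
    have h1 : H0 l (r + 1) ≤ (tt : ℝ≥0∞) * cc * (((rowP l).coeff r : ℝ≥0∞) * sc * sc) := by
      have h : (dig (ph l) (r + 1) : ℝ) * (2 ^ 56 * 9702) ≤ 1091 * (rowP l).coeff r := by
        exact_mod_cast main_ineq l r
      have : (dig (ph l) (r + 1) * sc : ℝ≥0) ≤ tt * cc * (((rowP l).coeff r : ℝ≥0) * sc * sc) := by
        rw [← NNReal.coe_le_coe]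
        simp only [tt, cc, sc]
        push_cast
        linarith
      rw [H0]
      exact_mod_cast this
    refine h1.trans ?_
    simp only [Phi]
    refine mul_le_mul_right ?_ _
    rw [coeff_rowP]
    push_cast
    rw [add_mul, add_mul, sum_mul, sum_mul]
    have hH : ∀ a b, (dig (ph a) b : ℝ≥0∞) * sc = H0 a b := fun a b => by simp [H0]
    have hC : ∀ a, (cn a : ℝ≥0∞) * sc ≤ kap xx a := fun a => by simpa using cn_le a
    have hE : ∀ a b, (dig (pe a) b : ℝ≥0∞) * sc ≤ EE ci H0 a b := fun a b => by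
      simpa using pe_le a b
    have hx : (xin : ℝ≥0∞) * sc ≤ xi := by simpa using xin_le
    refine add_le_add ?_ (sum_le_sum fun j _ => ?_)
    · calc _ = (xin : ℝ≥0∞) * sc * ((dig (ph (l + 1)) r : ℝ≥0∞) * sc +
            (if r = 0 then (cn (l + 1) : ℝ≥0∞) else 0) * sc) := by ring
        _ ≤ _ := by
          rw [hH]
          refine mul_le_mul' hx (add_le_add_right ?_ _)
          split_ifs
          · exact hC _
          · simp
    · rw [add_mul, add_mul, sum_mul, sum_mul]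
      refine add_le_add ?_ (sum_le_sum fun p _ => ?_)
      · calc _ = ((cn (l - j) : ℝ≥0∞) * sc) * ((dig (ph j) r : ℝ≥0∞) * sc) := by ring
          _ ≤ _ := by rw [hH]; exact mul_le_mul_left (hC _) _
      · calc _ = ((dig (ph (l - j)) p.1 : ℝ≥0∞) * sc) * ((dig (pe j) p.2 : ℝ≥0∞) * sc) := by ring
          _ ≤ _ := by rw [hH]; exact mul_le_mul_right (hE _ _) _

theorem row_H0 (l : ℕ) : row H0 l = (sumTo (dig (ph l)) 256 : ℝ≥0∞) * sc := by
  rw [row, tsum_eq_sum (s := range 256) fun r hr => by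
    rw [H0, dig_zero_of_lt (ph_lt l) (by simpa using hr)]; simp, sumTo_eq]
  push_cast
  rw [sum_mul]
  exact sum_congr rfl fun r _ => by simp [H0]

theorem sums_facts : sumTo (fun l => sumTo (dig (ph l)) 256) 96 ≤ 20953457769514574 ∧
    11264147537152165 ≤ sumTo (dig (ph 0)) 256 ∧
    17583583017158382 ≤ sumTo (fun l => dig (pe l) 0) 96 := by
  have h := check_sums
  simp only [Bool.and_eq_true, Nat.ble_eq] at h
  exact ⟨h.1.1, h.1.2, h.2⟩

theorem ev_H0 : ev H0 ≤ UU := by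
  rw [ev, tsum_eq_sum (s := range 96) fun l hl => by
    rw [row_H0, ph_zero (by simpa using hl), sumTo_eq]; simp [dig_zero]]
  simp only [row_H0]
  rw [← sum_mul, ← Nat.cast_sum, ← sumTo_eq]
  have h : ((sumTo (fun l => sumTo (dig (ph l)) 256) 96 : ℕ) : ℝ≥0∞) ≤ (20953457769514574 : ℕ) :=
    Nat.cast_le.2 sums_facts.1
  refine (mul_le_mul_left h _).trans ?_
  rw [← ENNReal.coe_natCast, ← ENNReal.coe_mul, ENNReal.coe_le_coe, ← NNReal.coe_le_coe]
  simp only [sc, UU]
  push_cast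
  norm_num

theorem H0_step (h : ℕ → ℕ → ℝ≥0∞) (H : ∀ l r, H0 l r ≤ h l r) (hh : ev h ≤ UU) :
    ev (Phi ((tt : ℝ≥0∞) * cc) xx xi ci h) ≤ UU := by
  refine step (d := dd) (L1 := ((1563214493 / 10000000000 : ℝ≥0) : ℝ≥0∞))
    (L2 := ((122010617 / 500000000 : ℝ≥0) : ℝ≥0∞))
    (A0 := ((1349735507 / 10000000000 : ℝ≥0) : ℝ≥0∞))
    (Eb := ((162157387 / 200000000 : ℝ≥0) : ℝ≥0∞))
    (C := ((2526169081 / 10000000000 : ℝ≥0) : ℝ≥0∞)) ?_ ?_ ENNReal.coe_ne_top ?_ ?_ ?_ ?_ ?_ ?_ H hh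
  · rw [← ENNReal.coe_add, ENNReal.coe_eq_one, dd, ci]
    norm_num
  · rw [Ne, ENNReal.coe_eq_zero, dd]
    norm_num
  · rw [← ENNReal.coe_one]
    norm_cast
    rw [← NNReal.coe_le_coe, xx]
    push_cast
    norm_num
  · rw [row_H0]
    have h : ((11264147537152165 : ℕ) : ℝ≥0∞) ≤ (sumTo (dig (ph 0)) 256 : ℕ) :=
      Nat.cast_le.2 sums_facts.2.1
    refine le_trans ?_ (mul_le_mul_left h _)
    rw [← ENNReal.coe_natCast, ← ENNReal.coe_mul, ENNReal.coe_le_coe, ← NNReal.coe_le_coe]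
    simp only [sc]
    push_cast
    norm_num
  · refine le_trans ?_ (ENNReal.sum_le_tsum (range 96))
    refine le_trans ?_ (sum_le_sum fun j _ => pe_le j 0)
    push_cast
    rw [← sum_mul, ← Nat.cast_sum, ← sumTo_eq]
    have h : ((17583583017158382 : ℕ) : ℝ≥0∞) ≤ (sumTo (fun l => dig (pe l) 0) 96 : ℕ) :=
      Nat.cast_le.2 sums_facts.2.2
    refine le_trans ?_ (mul_le_mul_left h _)
    rw [← ENNReal.coe_natCast, ← ENNReal.coe_mul, ENNReal.coe_le_coe, ← NNReal.coe_le_coe]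
    simp only [sc]
    push_cast
    norm_num
  · norm_cast
    rw [← NNReal.coe_le_coe, UU]
    push_cast
    norm_num
  · norm_cast
    rw [← NNReal.coe_le_coe, UU, ci, dd]
    push_cast
    norm_num
  · norm_cast
    rw [← NNReal.coe_le_coe, UU, tt, cc, xi]
    push_cast
    norm_num

end Pool.Agent.H786Z.St3
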