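import Pool.Agent.H786Z.St3.Struct
import Pool.Agent.H786Z.St3.Oper

open Finset ENNReal

namespace Pool.Agent.H786Z.St3

theorem sum_image_le' {α β : Type*} [DecidableEq β] (S : Finset α) (f : α → β) (w : β → ℝ≥0∞) :
    ∑ b ∈ S.image f, w b ≤ ∑ a ∈ S, w (f a) := by
  classical
  induction S using Finset.induction_on with
  | empty => simp
  | insert a S ha ih =>
    rw [image_insert, sum_insert ha]
    by_cases h : f a ∈ S.image f
    · rw [insert_eq_of_mem h]
      exact ih.trans le_add_self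
    · rw [sum_insert h]
      exact add_le_add_right ih _

theorem sum_union_le' {β : Type*} [DecidableEq β] (S T : Finset β) (w : β → ℝ≥0∞) :
    ∑ b ∈ S ∪ T, w b ≤ ∑ b ∈ S, w b + ∑ b ∈ T, w b := by
  rw [← sum_union_inter]
  exact le_self_add

open Classical in
/-- The words of length between `1` and `k` whose image avoids 231. -/
noncomputable def SS (s : List ℕ → List ℕ) (k : ℕ) : Finset (List ℕ) :=
  ((range (k + 1)).biUnion fun n => (List.range n).permutations.toFinset).filter (Good s)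

theorem mem_SS {s : List ℕ → List ℕ} {k : ℕ} {σ : List ℕ} :
    σ ∈ SS s k ↔ Good s σ ∧ σ.length ≤ k := by
  simp only [SS, mem_filter, mem_biUnion, mem_range, List.mem_toFinset, List.mem_permutations]
  constructor
  · rintro ⟨⟨n, hn, hp⟩, hg⟩
    refine ⟨hg, ?_⟩
    have := hp.length_eq
    rw [List.length_range] at this
    omega
  · rintro ⟨hg, hk⟩
    exact ⟨⟨σ.length, by omega, hg.2.1.perm⟩, hg⟩

noncomputable def wt (s : List ℕ → List ℕ) (t x c : ℝ≥0∞) (σ : List ℕ) (l r : ℕ) : ℝ≥0∞ :=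
  if comp s σ = r then t ^ σ.length * x ^ l * c ^ r * Ft σ l else 0

noncomputable def ewt (s : List ℕ → List ℕ) (t x c : ℝ≥0∞) (σ : List ℕ) (l r : ℕ) : ℝ≥0∞ :=
  if r ≤ comp s σ then t ^ σ.length * x ^ l * c ^ r * Ft σ l else 0

noncomputable def GG (s : List ℕ → List ℕ) (t x c : ℝ≥0∞) (k l r : ℕ) : ℝ≥0∞ :=
  ∑ σ ∈ SS s k, wt s t x c σ l r

variable {s : List ℕ → List ℕ} {t x c xi ci : ℝ≥0∞}

theorem ewt_le (hc : c * ci = 1) (k j r : ℕ) :
    ∑ σ ∈ SS s k, ewt s t x c σ j r ≤ EE ci (GG s t x c k) j r := by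
  unfold EE GG
  simp only [sum_mul]
  rw [tsum_fin]
  refine sum_le_sum fun σ _ => ?_
  unfold ewt
  split_ifs with h
  · refine le_trans (le_of_eq ?_) (ENNReal.le_tsum (comp s σ - r))
    rw [wt, if_pos (by omega), pow_add]
    calc _ = t ^ σ.length * x ^ j * c ^ r * Ft σ j * (c * ci) ^ (comp s σ - r) := by
          rw [hc, one_pow, mul_one]
      _ = _ := by ring
  · exact zero_le

theorem comp_single (hs : IsSort s) : comp s [0] = 1 := by
  have := comp_snoc hs (L := []) ⟨List.nodup_nil, by simp⟩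
  simpa [comp] using this

theorem wt_single (hs : IsSort s) (hx : x * xi = 1) (l r : ℕ) :
    wt s t x c [0] l (r + 1) = t * c * (xi * if r = 0 then kap x (l + 1) else 0) := by
  unfold wt
  rw [comp_single hs]
  by_cases h : r = 0
  · subst h
    have := Ft_snoc (L := []) ⟨List.nodup_nil, by simp⟩ l
    simp only [List.length_nil, List.nil_append] at this
    rw [if_pos rfl, if_pos rfl, this, Ft, List.nil_append, F_replicate, kap]
    calc _ = t * x ^ l * c * catalan (l + 1) * (x * xi) := by simp [hx]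
      _ = _ := by ring
  · rw [if_neg (by omega), if_neg h]
    simp

theorem wt_snoc (hs : IsSort s) (hx : x * xi = 1) {L : List ℕ} (hL : Std L) (l r : ℕ) :
    wt s t x c (L ++ [L.length]) l (r + 1) = t * c * (xi * wt s t x c L (l + 1) r) := by
  unfold wt
  rw [comp_snoc hs hL, Ft_snoc hL]
  by_cases h : comp s L = r
  · rw [if_pos (by omega), if_pos h, List.length_append, List.length_singleton]
    calc _ = t ^ (L.length + 1) * x ^ l * c ^ (r + 1) * Ft L (l + 1) * (x * xi) := by
          rw [hx, mul_one]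
      _ = _ := by ring
  · rw [if_neg (by omega), if_neg h]
    simp

theorem wt_cons (hs : IsSort s) {R : List ℕ} (hR : Std R) (hne : R ≠ []) (l r : ℕ) :
    wt s t x c (R.length :: R) l (r + 1) =
      t * c * ∑ j ∈ range l, kap x (l - j) * wt s t x c R j r := by
  unfold wt
  rw [comp_cons hs hR, Ft_cons hR hne]
  by_cases h : comp s R = r
  · simp only [h, if_true, List.length_cons]
    push_cast
    rw [mul_sum, mul_sum]
    refine sum_congr rfl fun j hj => ?_
    have := mem_range.1 hj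
    rw [kap, show x ^ l = x ^ (l - j) * x ^ j by rw [← pow_add]; congr 1; omega]
    ring
  · rw [if_neg (by omega)]
    simp [h]

theorem wt_build (hs : IsSort s) {L R : List ℕ} (hL : Good s L) (hR : Good s R) (l r : ℕ) :
    ∑ p ∈ (range (R.length + 1)).filter (Cut (s R)), wt s t x c (build L R p) l (r + 1) ≤
      t * c * ∑ j ∈ range l, ∑ q ∈ antidiagonal r,
        wt s t x c L (l - j) q.1 * ewt s t x c R j q.2 := by
  set W : ℝ≥0∞ := t ^ (L.length + R.length + 1) * x ^ l * c ^ (r + 1) *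
    ((∑ j ∈ range l, Ft L (l - j) * Ft R j : ℕ) : ℝ≥0∞) with hW
  set g : ℕ → ℝ≥0∞ := fun v => if comp s L + v = r + 1 then W else 0 with hg
  set P := (range (R.length + 1)).filter (Cut (s R)) with hP
  have e1 : ∑ p ∈ P, wt s t x c (build L R p) l (r + 1) =
      ∑ p ∈ P, g (cnt (s R) (R.length + 1) p) := by
    refine sum_congr rfl fun p hp => ?_
    have h1 := mem_range.1 (mem_filter.1 hp).1
    rw [wt, comp_build hs hL.2.1 hL.1 hR.2.1 hR.1 h1, length_build, Ft_build hL.2.1 hR.2.1 hR.1 h1]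
  have inj : Set.InjOn (cnt (s R) (R.length + 1)) P := by
    intro p hp p' hp' h
    have h1 := mem_filter.1 hp
    have h2 := mem_filter.1 hp'
    rcases lt_trichotomy p p' with h3 | h3 | h3
    · have := cnt_lt (mem_range.1 h1.1) h1.2 h3; omega
    · exact h3
    · have := cnt_lt (mem_range.1 h2.1) h2.2 h3; omega
  rw [e1, ← sum_image inj]
  by_cases hcase : comp s L ≤ r ∧ r - comp s L ≤ comp s R
  · have e2 : ∑ v ∈ P.image (cnt (s R) (R.length + 1)), g v ≤ W := by
      rw [sum_congr rfl (g := fun v => if v = r + 1 - comp s L then W else 0)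
        fun v _ => if_congr (by omega) rfl rfl, sum_ite_eq']
      split_ifs
      · exact le_rfl
      · exact zero_le
    refine e2.trans ?_
    rw [hW]
    push_cast
    rw [mul_sum, mul_sum]
    refine sum_le_sum fun j hj => ?_
    have hj' := mem_range.1 hj
    refine le_trans (le_of_eq ?_) (mul_le_mul_right (single_le_sum
      (f := fun q : ℕ × ℕ => wt s t x c L (l - j) q.1 * ewt s t x c R j q.2)
      (fun _ _ => zero_le) (a := (comp s L, r - comp s L))
      (HasAntidiagonal.mem_antidiagonal.2 (by simp only; omega))) _)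
    simp only [wt, ewt, if_true]
    rw [if_pos hcase.2, show x ^ l = x ^ (l - j) * x ^ j by rw [← pow_add]; congr 1; omega,
      show c ^ (r + 1) = c ^ comp s L * c ^ (r - comp s L) * c by
        rw [← pow_add, ← pow_succ]; congr 1; omega]
    ring
  · rw [sum_eq_zero]
    · exact zero_le
    · intro v hv
      obtain ⟨p, hp, rfl⟩ := mem_image.1 hv
      have h1 := mem_filter.1 hp
      have h2 := cnt_lt (mem_range.1 h1.1) h1.2 (Nat.lt_succ_self p)
      have h3 := cnt_le (s := s) R p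
      exact if_neg (by omega)

theorem comp_pos {σ : List ℕ} (h : σ ≠ []) : 0 < comp s σ := by
  obtain ⟨n, hn⟩ : ∃ n, σ.length = n + 1 :=
    ⟨σ.length - 1, by have := List.length_pos_iff.2 h; omega⟩
  unfold comp
  rw [hn, sum_range_succ', if_pos]
  · omega
  · exact List.pairwise_of_forall fun a b => by omega

theorem GG_succ (hs : IsSort s) (hx : x * xi = 1) (hc : c * ci = 1) (k l r : ℕ) :
    GG s t x c (k + 1) l r ≤ Phi (t * c) x xi ci (GG s t x c k) l r := by
  classical
  cases r with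
  | zero =>
    rw [GG, sum_eq_zero]
    · exact zero_le
    · intro σ hσ
      have := comp_pos (s := s) (mem_SS.1 hσ).1.1
      exact if_neg (by omega)
  | succ r =>
    set T : Finset (Σ _ : List ℕ × List ℕ, ℕ) := (SS s k ×ˢ SS s k).sigma
      fun q => (range (q.2.length + 1)).filter (Cut (s q.2)) with hT
    have hsub : SS s (k + 1) ⊆ {[0]} ∪ (SS s k).image (fun L => L ++ [L.length]) ∪
        ((SS s k).image (fun R => R.length :: R) ∪ T.image fun q => build q.1.1 q.1.2 q.2) := by
      intro σ hσ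
      obtain ⟨hg, hk⟩ := mem_SS.1 hσ
      simp only [mem_union, mem_singleton, mem_image]
      rcases structure_thm hs hg with h | ⟨L, hL, rfl⟩ | ⟨R, hR, rfl⟩ | ⟨L, R, p, hL, hR, h1, h2, rfl⟩
      · exact Or.inl (Or.inl h)
      · exact Or.inl (Or.inr ⟨L, mem_SS.2 ⟨hL, by simpa using hk⟩, rfl⟩)
      · exact Or.inr (Or.inl ⟨R, mem_SS.2 ⟨hR, by simpa using hk⟩, rfl⟩)
      · rw [length_build] at hk
        exact Or.inr (Or.inr ⟨⟨(L, R), p⟩, mem_sigma.2 ⟨mem_product.2
          ⟨mem_SS.2 ⟨hL, by simp only; omega⟩, mem_SS.2 ⟨hR, by simp only; omega⟩⟩,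
          mem_filter.2 ⟨mem_range.2 h1, h2⟩⟩, rfl⟩)
    have b1 : ∑ σ ∈ (SS s k).image (fun L => L ++ [L.length]), wt s t x c σ l (r + 1) ≤
        t * c * (xi * GG s t x c k (l + 1) r) := by
      refine (sum_image_le' _ _ _).trans (le_of_eq ?_)
      rw [GG, mul_sum, mul_sum]
      exact sum_congr rfl fun L hL => wt_snoc hs hx (mem_SS.1 hL).1.2.1 l r
    have b2 : ∑ σ ∈ (SS s k).image (fun R => R.length :: R), wt s t x c σ l (r + 1) ≤
        t * c * ∑ j ∈ range l, kap x (l - j) * GG s t x c k j r := by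
      refine (sum_image_le' _ _ _).trans (le_of_eq ?_)
      simp only [GG, mul_sum]
      rw [sum_comm]
      refine sum_congr rfl fun R hR => ?_
      rw [wt_cons hs (mem_SS.1 hR).1.2.1 (mem_SS.1 hR).1.1, mul_sum]
    have b3 : ∑ σ ∈ T.image (fun q => build q.1.1 q.1.2 q.2), wt s t x c σ l (r + 1) ≤
        t * c * ∑ j ∈ range l, ∑ p ∈ antidiagonal r,
          GG s t x c k (l - j) p.1 * EE ci (GG s t x c k) j p.2 := by
      refine (sum_image_le' _ _ _).trans ?_
      rw [hT, sum_sigma]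
      refine (sum_le_sum fun q hq => wt_build hs (mem_SS.1 (mem_product.1 hq).1).1
        (mem_SS.1 (mem_product.1 hq).2).1 l r).trans ?_
      rw [← mul_sum, sum_comm]
      refine mul_le_mul_right (sum_le_sum fun j _ => ?_) _
      rw [sum_comm]
      refine sum_le_sum fun p _ => ?_
      rw [sum_product]
      dsimp only
      rw [← sum_mul_sum]
      exact mul_le_mul_right (ewt_le hc k j p.2) _
    refine (sum_le_sum_of_subset hsub).trans ((sum_union_le' _ _ _).trans ?_)
    refine (add_le_add ((sum_union_le' _ _ _).trans (add_le_add_right b1 _))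
      ((sum_union_le' _ _ _).trans (add_le_add b2 b3))).trans (le_of_eq ?_)
    rw [sum_singleton, wt_single hs hx]
    simp only [Phi]
    rw [sum_add_distrib]
    ring

theorem GG_zero (l r : ℕ) : GG s t x c 0 l r = 0 := by
  refine sum_eq_zero fun σ hσ => ?_
  obtain ⟨h1, h2⟩ := mem_SS.1 hσ
  exact absurd (List.length_eq_zero_iff.1 (by omega)) h1.1

/-- Bound on the truncated series from a subsolution and a one-point invariant bound. -/
theorem GG_bound (hs : IsSort s) (hx : x * xi = 1) (hc : c * ci = 1) {H0 : ℕ → ℕ → ℝ≥0∞}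
    {U : ℝ≥0∞} (hsub : ∀ l r, H0 l r ≤ Phi (t * c) x xi ci H0 l r) (h0 : ev H0 ≤ U)
    (hstep : ∀ h, (∀ l r, H0 l r ≤ h l r) → ev h ≤ U → ev (Phi (t * c) x xi ci h) ≤ U) (k : ℕ) :
    ev (GG s t x c k) ≤ U := by
  have key : ∃ h : ℕ → ℕ → ℝ≥0∞, (∀ l r, H0 l r ≤ h l r) ∧ (∀ l r, GG s t x c k l r ≤ h l r) ∧
      ev h ≤ U := by
    induction k with
    | zero => exact ⟨H0, fun _ _ => le_rfl, fun l r => by rw [GG_zero]; exact zero_le, h0⟩
    | succ k ih =>
      obtain ⟨h, h1, h2, h3⟩ := ih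
      exact ⟨Phi (t * c) x xi ci h, fun l r => (hsub l r).trans (Phi_mono _ _ _ _ h1 l r),
        fun l r => (GG_succ hs hx hc k l r).trans (Phi_mono _ _ _ _ h2 l r), hstep h h1 h3⟩
  obtain ⟨h, -, h2, h3⟩ := key
  exact (ENNReal.tsum_le_tsum fun l => ENNReal.tsum_le_tsum fun r => h2 l r).trans h3

theorem count_le (hs : IsSort s) (hc : 1 ≤ c) {n : ℕ} (hn : 0 < n) (S : Finset (List ℕ))
    (hS : ∀ π ∈ S, π.Perm (List.range n) ∧ s (s (s π)) = List.range n) :
    t ^ n * S.card ≤ ev (GG s t x c n) := by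
  classical
  have hnd : ∀ π ∈ S, π.Nodup := fun π hπ => (hS π hπ).1.nodup_iff.2 List.nodup_range
  have hp : ∀ π ∈ S, (s π).Perm (List.range n) := fun π hπ =>
    (hs.perm π (hnd π hπ)).trans (hS π hπ).1
  have hlen : ∀ π ∈ S, (s π).length = n := fun π hπ => by simpa using (hp π hπ).length_eq
  have hmem : ∀ π ∈ S, s π ∈ (SS s n).filter fun σ => σ.length = n := by
    intro π hπ
    have h1 : (s π).Nodup := (hp π hπ).nodup_iff.2 List.nodup_range
    refine mem_filter.2 ⟨mem_SS.2 ⟨⟨?_, ⟨h1, fun y hy => ?_⟩, ?_⟩, (hlen π hπ).le⟩, hlen π hπ⟩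
    · rw [← List.length_pos_iff, hlen π hπ]; exact hn
    · rw [hlen π hπ]; exact List.mem_range.1 ((hp π hπ).mem_iff.1 hy)
    · apply hs.av_of_sorted ((hs.perm _ h1).nodup_iff.2 h1)
      rw [(hS π hπ).2]
      exact List.pairwise_lt_range
  rw [card_eq_sum_card_fiberwise (f := s) hmem]
  push_cast
  rw [mul_sum]
  refine le_trans ?_ (ENNReal.le_tsum 0)
  unfold row GG
  rw [tsum_fin]
  refine le_trans (sum_le_sum fun σ hσ => ?_) (sum_le_sum_of_subset (filter_subset _ _))
  refine le_trans ?_ (ENNReal.le_tsum (comp s σ))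
  have h1 := hs.card_le _ σ (S.filter fun π => s π = σ) rfl fun π hπ =>
    ⟨hnd π (mem_filter.1 hπ).1, (mem_filter.1 hπ).2⟩
  rw [wt, if_pos rfl, (mem_filter.1 hσ).2, Ft, pow_zero, mul_one, List.replicate_zero,
    List.append_nil, mul_assoc]
  refine mul_le_mul_right ?_ _
  calc (((S.filter fun π => s π = σ).card : ℕ) : ℝ≥0∞) ≤ 1 * F σ := by
        rw [one_mul]; exact_mod_cast h1
    _ ≤ _ := mul_le_mul_left (one_le_pow₀ hc) _

end Pool.Agent.H786Z.St3
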