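import Pool.Agent.H786Z.St3.Fert

open Finset

namespace Pool.Agent.H786Z.St3

/-- The defining equations of the stack-sorting map. -/
structure IsSort (s : List ℕ → List ℕ) : Prop where
  nil : s [] = []
  step : ∀ (L R : List ℕ) (m : ℕ), (L ++ m :: R).Nodup → (∀ x ∈ L, x < m) → (∀ x ∈ R, x < m) →
    s (L ++ m :: R) = s L ++ s R ++ [m]

theorem exists_decomp (l : List ℕ) (hl : l ≠ []) (hn : l.Nodup) :
    ∃ L m R, l = L ++ m :: R ∧ (∀ x ∈ L, x < m) ∧ ∀ x ∈ R, x < m := by
  have hm : l.max hl ∈ l := List.max_mem hl
  obtain ⟨L, R, h⟩ := List.append_of_mem hm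
  have hle : ∀ x ∈ l, x ≤ l.max hl := fun x hx => List.le_max_of_mem hx
  generalize l.max hl = m at h hle
  subst h
  rw [List.nodup_append] at hn
  refine ⟨L, m, R, rfl, fun x hx => lt_of_le_of_ne (hle x (by simp [hx])) ?_,
    fun x hx => lt_of_le_of_ne (hle x (by simp [hx])) ?_⟩
  · exact hn.2.2 x hx m (by simp)
  · rintro rfl
    exact (List.nodup_cons.1 hn.2.1).1 hx

theorem sort_ind {P : List ℕ → Prop} (h0 : P [])
    (h1 : ∀ L m R, (L ++ m :: R).Nodup → (∀ x ∈ L, x < m) → (∀ x ∈ R, x < m) → P L → P R →
      P (L ++ m :: R)) (l : List ℕ) (hn : l.Nodup) : P l := by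
  generalize hk : l.length = n
  induction n using Nat.strong_induction_on generalizing l with
  | _ n ih =>
    rcases eq_or_ne l [] with rfl | hl
    · exact h0
    obtain ⟨L, m, R, rfl, hL, hR⟩ := exists_decomp l hl hn
    have hn' := List.nodup_append.1 hn
    simp only [List.length_append, List.length_cons] at hk
    exact h1 L m R hn hL hR (ih _ (by omega) L hn'.1 rfl)
      (ih _ (by omega) R (List.nodup_cons.1 hn'.2.1).2 rfl)

/-- A concrete stack-sorting map. -/
def stackSort (l : List ℕ) : List ℕ :=
  if h : l = [] then [] else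
    stackSort (l.take (l.idxOf (l.max h))) ++ stackSort (l.drop (l.idxOf (l.max h) + 1)) ++
      [l.max h]
termination_by l.length
decreasing_by
  · have := List.idxOf_lt_length_iff.2 (List.max_mem h)
    simp only [List.length_take]
    omega
  · have := List.length_pos_iff.2 h
    simp only [List.length_drop]
    omega

theorem isSort_stackSort : IsSort stackSort where
  nil := by rw [stackSort]; simp
  step := by
    intro L R m _ hL hR
    have hne : L ++ m :: R ≠ [] := by simp
    have hmax : (L ++ m :: R).max hne = m := by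
      apply le_antisymm
      · have := List.max_mem hne
        rcases List.mem_append.1 this with h | h
        · exact (hL _ h).le
        · rcases List.mem_cons.1 h with h | h
          · exact h.le
          · exact (hR _ h).le
      · exact List.le_max_of_mem (by simp)
    have hidx : (L ++ m :: R).idxOf m = L.length := by
      rw [List.idxOf_append_of_notMem fun h => lt_irrefl _ (hL m h)]
      simp
    rw [stackSort, dif_neg hne, hmax, hidx]
    simp

variable {s : List ℕ → List ℕ}

theorem IsSort.perm (hs : IsSort s) (l : List ℕ) (hn : l.Nodup) : (s l).Perm l := by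
  refine sort_ind (P := fun l => (s l).Perm l) (by rw [hs.nil]) ?_ l hn
  intro L m R hn hL hR h1 h2
  rw [hs.step L R m hn hL hR, List.append_assoc]
  exact h1.append ((h2.append_right [m]).trans (List.perm_append_singleton m R))

theorem IsSort.map (hs : IsSort s) {φ : ℕ → ℕ} (hφ : StrictMono φ) (l : List ℕ) (hn : l.Nodup) :
    s (l.map φ) = (s l).map φ := by
  refine sort_ind (P := fun l => s (l.map φ) = (s l).map φ) (by simp [hs.nil]) ?_ l hn
  intro L m R hn hL hR h1 h2
  have hn' := hn.map hφ.injective
  rw [List.map_append, List.map_cons] at hn' ⊢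
  rw [hs.step L R m hn hL hR, hs.step _ _ _ hn' (List.forall_mem_map.2 fun x hx => hφ (hL x hx))
    (List.forall_mem_map.2 fun x hx => hφ (hR x hx)), h1, h2]
  simp

/-- Avoidance of the pattern 231. -/
def Av (τ : List ℕ) : Prop := ∀ a b c, [b, c, a].Sublist τ → a < b → b < c → False

theorem Av.sublist {τ τ' : List ℕ} (h : Av τ) (h' : τ'.Sublist τ) : Av τ' :=
  fun a b c h1 => h a b c (h1.trans h')

theorem Av.of_map {τ : List ℕ} {φ : ℕ → ℕ} (hφ : StrictMono φ) (h : Av (τ.map φ)) : Av τ :=
  fun a b c h1 h2 h3 => h (φ a) (φ b) (φ c) (h1.map φ) (hφ h2) (hφ h3)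

theorem IsSort.inv (hs : IsSort s) {a b c : ℕ} (hab : a < b) (hbc : b < c) (τ : List ℕ)
    (hn : τ.Nodup) : [b, c, a].Sublist τ → [b, a].Sublist (s τ) := by
  refine sort_ind (P := fun τ => [b, c, a].Sublist τ → [b, a].Sublist (s τ)) (by simp) ?_ τ hn
  intro L m R hn hL hR h1 h2 h
  rw [hs.step L R m hn hL hR]
  have hn' := List.nodup_append.1 hn
  have pL := hs.perm L hn'.1
  have pR := hs.perm R (List.nodup_cons.1 hn'.2.1).2
  have cross : b ∈ L → a ∈ m :: R → [b, a].Sublist (s L ++ s R ++ [m]) := by
    intro hb ha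
    have ha' : a ∈ R := by
      rcases List.mem_cons.1 ha with rfl | ha
      · have := hL b hb; omega
      · exact ha
    refine List.Sublist.trans ?_ (List.sublist_append_left _ _)
    exact (List.singleton_sublist.2 (pL.mem_iff.2 hb)).append
      (List.singleton_sublist.2 (pR.mem_iff.2 ha'))
  obtain ⟨l1, l2, e, s1, s2⟩ := List.sublist_append_iff.1 h
  match l1, e, s1 with
  | [], e, _ =>
    simp only [List.nil_append] at e
    subst e
    rcases List.sublist_cons_iff.1 s2 with s3 | ⟨r, e, s3⟩
    · exact (h2 s3).trans ((List.sublist_append_right _ _).trans (List.sublist_append_left _ _))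
    · simp only [List.cons.injEq] at e
      obtain ⟨rfl, rfl⟩ := e
      have := hR c (s3.subset (by simp))
      omega
  | [x], e, s1 =>
    simp only [List.cons_append, List.nil_append, List.cons.injEq] at e
    obtain ⟨rfl, rfl⟩ := e
    exact cross (s1.subset (by simp)) (s2.subset (by simp))
  | [x, y], e, s1 =>
    simp only [List.cons_append, List.nil_append, List.cons.injEq] at e
    obtain ⟨rfl, rfl, rfl⟩ := e
    exact cross (s1.subset (by simp)) (s2.subset (by simp))
  | x :: y :: z :: w, e, s1 =>
    simp only [List.cons_append, List.cons.injEq] at e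
    obtain ⟨rfl, rfl, rfl, e⟩ := e
    have hw : w = [] := (List.append_eq_nil_iff.1 e.symm).1
    subst hw
    exact (h1 s1).trans ((List.sublist_append_left _ _).trans (List.sublist_append_left _ _))

theorem IsSort.av_of_sorted (hs : IsSort s) {τ : List ℕ} (hn : τ.Nodup)
    (h : (s τ).Pairwise (· < ·)) : Av τ := by
  intro a b c h1 hab hbc
  have := h.sublist (hs.inv hab hbc τ hn h1)
  simp only [List.pairwise_cons, List.mem_singleton, forall_eq] at this
  omega

theorem IsSort.card_le (hs : IsSort s) (n : ℕ) : ∀ (w : List ℕ) (S : Finset (List ℕ)),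
    w.length = n → (∀ π ∈ S, π.Nodup ∧ s π = w) → S.card ≤ F w := by
  induction n using Nat.strong_induction_on with
  | _ n ih =>
    intro w S hw hS
    rcases List.eq_nil_or_concat w with rfl | ⟨u, z, rfl⟩
    · rw [F_nil, card_le_one]
      have : ∀ π ∈ S, π = [] := fun π hπ => by
        have := hs.perm π (hS π hπ).1
        rw [(hS π hπ).2] at this
        exact this.symm.eq_nil
      intro a ha b hb
      rw [this a ha, this b hb]
    rw [List.concat_eq_append] at *
    have key : ∀ π ∈ S, ∃ L R, π = L ++ z :: R ∧ L.Nodup ∧ R.Nodup ∧ s L = u.take L.length ∧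
        s R = u.drop L.length ∧ L.length ≤ u.length ∧ ∀ x ∈ u, x ≤ z := by
      intro π hπ
      obtain ⟨hn, he⟩ := hS π hπ
      have hne : π ≠ [] := by
        rintro rfl
        rw [hs.nil] at he
        simp at he
      obtain ⟨L, m, R, rfl, hL, hR⟩ := exists_decomp π hne hn
      rw [hs.step L R m hn hL hR] at he
      obtain ⟨e1, e2⟩ := List.append_inj' he rfl
      simp only [List.cons.injEq, and_true] at e2
      subst e2
      have hn' := List.nodup_append.1 hn
      have pL := hs.perm L hn'.1
      have pR := hs.perm R (List.nodup_cons.1 hn'.2.1).2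
      refine ⟨L, R, rfl, hn'.1, (List.nodup_cons.1 hn'.2.1).2, ?_, ?_, ?_, ?_⟩
      · rw [← e1, ← pL.length_eq, List.take_left]
      · rw [← e1, ← pL.length_eq, List.drop_left]
      · rw [← e1, List.length_append, pL.length_eq]; omega
      · intro x hx
        rw [← e1] at hx
        rcases List.mem_append.1 hx with hx | hx
        · exact (hL x (pL.mem_iff.1 hx)).le
        · exact (hR x (pR.mem_iff.1 hx)).le
    rcases S.eq_empty_or_nonempty with rfl | ⟨π₀, hπ₀⟩
    · simp
    obtain ⟨-, -, -, -, -, -, -, -, hz⟩ := key π₀ hπ₀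
    rw [F_concat, if_pos hz, spl]
    choose! Lf Rf hdec using key
    rw [card_eq_sum_card_fiberwise (f := fun π => (Lf π).length) (t := range (u.length + 1))
      fun π hπ => by
        have := (hdec π hπ).2.2.2.2.2.1
        simp only [coe_range, Set.mem_Iio]
        omega]
    refine sum_le_sum fun k _ => ?_
    set T := S.filter fun π => (Lf π).length = k with hT
    simp only [List.length_append, List.length_singleton] at hw
    have c1 := ih _ (by simp only [List.length_take]; omega) (u.take k) (T.image Lf) rfl (by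
      intro L hL
      obtain ⟨π, hπ, rfl⟩ := mem_image.1 hL
      obtain ⟨hπ, hk⟩ := mem_filter.1 hπ
      exact ⟨(hdec π hπ).2.1, hk ▸ (hdec π hπ).2.2.2.1⟩)
    have c2 := ih _ (by simp only [List.length_drop]; omega) (u.drop k) (T.image Rf) rfl (by
      intro L hL
      obtain ⟨π, hπ, rfl⟩ := mem_image.1 hL
      obtain ⟨hπ, hk⟩ := mem_filter.1 hπ
      exact ⟨(hdec π hπ).2.2.1, hk ▸ (hdec π hπ).2.2.2.2.1⟩)
    refine le_trans ?_ (Nat.mul_le_mul c1 c2)
    rw [← card_product]
    refine card_le_card_of_injOn (fun π => (Lf π, Rf π)) (fun π hπ => ?_) ?_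
    · exact mem_coe.2 (mem_product.2 ⟨mem_image_of_mem _ hπ, mem_image_of_mem _ hπ⟩)
    · intro a ha b hb hab
      simp only [Prod.mk.injEq] at hab
      rw [(hdec a (mem_filter.1 ha).1).1, (hdec b (mem_filter.1 hb).1).1, hab.1, hab.2]

end Pool.Agent.H786Z.St3
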