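import Pool.Agent.H786Z.St3.Sort

open Finset

namespace Pool.Agent.H786Z.St3

/-- Permutations of an initial segment. -/
def Std (σ : List ℕ) : Prop := σ.Nodup ∧ ∀ x ∈ σ, x < σ.length

theorem length_le_of_lt {l : List ℕ} (hn : l.Nodup) {y : ℕ} (h : ∀ x ∈ l, x < y) :
    l.length ≤ y := by
  simpa using (List.subperm_of_subset hn (l₂ := List.range y)
    fun x hx => List.mem_range.2 (h x hx)).length_le

theorem le_length_of_mem {l : List ℕ} {y : ℕ} (h : ∀ x < y, x ∈ l) : y ≤ l.length := by
  simpa using (List.subperm_of_subset (List.nodup_range (n := y)) (l₂ := l)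
    fun x hx => h x (List.mem_range.1 hx)).length_le

theorem Std.perm {σ : List ℕ} (h : Std σ) : σ.Perm (List.range σ.length) :=
  (List.subperm_of_subset h.1 fun x hx => List.mem_range.2 (h.2 x hx)).perm_of_length_le (by simp)

theorem Std.mem {σ : List ℕ} (h : Std σ) {x : ℕ} (hx : x < σ.length) : x ∈ σ :=
  h.perm.mem_iff.2 (List.mem_range.2 hx)

theorem Std.decomp {σ : List ℕ} (h : Std σ) (hne : σ ≠ []) :
    ∃ L R, σ = L ++ (L.length + R.length) :: R ∧ (∀ x ∈ L, x < L.length + R.length) ∧
      ∀ x ∈ R, x < L.length + R.length := by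
  obtain ⟨L, m, R, rfl, hL, hR⟩ := exists_decomp σ hne h.1
  have h1 := h.2 m (by simp)
  have h2 := h.mem (x := L.length + R.length) (by simp)
  simp only [List.length_append, List.length_cons] at h1
  have : m = L.length + R.length := by
    rcases List.mem_append.1 h2 with h2 | h2
    · have := hL _ h2; omega
    · rcases List.mem_cons.1 h2 with h2 | h2
      · exact h2.symm
      · have := hR _ h2; omega
  subst this
  exact ⟨L, R, rfl, hL, hR⟩

def Cut (τ : List ℕ) (y : ℕ) : Prop := τ.Pairwise fun c a => ¬ (a < y ∧ y ≤ c)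

instance (τ : List ℕ) (y : ℕ) : Decidable (Cut τ y) := by unfold Cut; infer_instance

def cnt (τ : List ℕ) (n p : ℕ) : ℕ := ∑ q ∈ range n, if p ≤ q ∧ Cut τ q then 1 else 0

def comp (s : List ℕ → List ℕ) (σ : List ℕ) : ℕ :=
  ∑ y ∈ range σ.length, if Cut (s σ) y then 1 else 0

def Ft (σ : List ℕ) (l : ℕ) : ℕ := F (σ ++ List.replicate l σ.length)

def phiL (a p x : ℕ) : ℕ := if x + 1 < a then x else x + p

def phiR (a p x : ℕ) : ℕ := if x < p then x + (a - 1) else x + a

theorem phiL_mono (a p : ℕ) : StrictMono (phiL a p) := by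
  intro x y h
  unfold phiL
  split_ifs <;> omega

theorem phiR_mono (a p : ℕ) : StrictMono (phiR a p) := by
  intro x y h
  unfold phiR
  split_ifs <;> omega

def build (L R : List ℕ) (p : ℕ) : List ℕ :=
  L.map (phiL L.length p) ++ (L.length + R.length) :: R.map (phiR L.length p)

def Good (s : List ℕ → List ℕ) (σ : List ℕ) : Prop := σ ≠ [] ∧ Std σ ∧ Av (s σ)

variable {s : List ℕ → List ℕ}

theorem structure_thm (hs : IsSort s) {σ : List ℕ} (h : Good s σ) :
    σ = [0] ∨ (∃ L, Good s L ∧ σ = L ++ [L.length]) ∨ (∃ R, Good s R ∧ σ = R.length :: R) ∨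
      ∃ L R p, Good s L ∧ Good s R ∧ p < R.length + 1 ∧ Cut (s R) p ∧ σ = build L R p := by
  obtain ⟨hne, hstd, hav⟩ := h
  obtain ⟨L, R, rfl, hL, hR⟩ := hstd.decomp hne
  have hn := List.nodup_append.1 hstd.1
  have hnR := (List.nodup_cons.1 hn.2.1).2
  rw [hs.step L R _ hstd.1 hL hR] at hav
  have avL : Av (s L) :=
    hav.sublist ((List.sublist_append_left _ _).trans (List.sublist_append_left _ _))
  have avR : Av (s R) :=
    hav.sublist ((List.sublist_append_right _ _).trans (List.sublist_append_left _ _))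
  rcases eq_or_ne R [] with rfl | hRne
  · rcases eq_or_ne L [] with rfl | hLne
    · left; rfl
    · right; left
      exact ⟨L, ⟨hLne, ⟨hn.1, hL⟩, avL⟩, rfl⟩
  rcases eq_or_ne L [] with rfl | hLne
  · right; right; left
    exact ⟨R, ⟨hRne, ⟨hnR, by simpa using hR⟩, avR⟩, by simp⟩
  right; right; right
  obtain ⟨L1, M, L2, hLd, h1, h2⟩ := exists_decomp L hLne hn.1
  have hnL := hn.1
  rw [hLd] at hnL
  have hsL : s L = s L1 ++ s L2 ++ [M] := by rw [hLd, hs.step L1 L2 M hnL h1 h2]
  have hn1 := List.nodup_append.1 hnL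
  have hn2 := (List.nodup_cons.1 hn1.2.1).2
  have p1 := hs.perm L1 hn1.1
  have p2 := hs.perm L2 hn2
  have pR := hs.perm R hnR
  have hn12 : (L1 ++ L2).Nodup :=
    hnL.sublist ((List.Sublist.refl _).append (List.sublist_cons_self _ _))
  have hlen : L.length = (L1 ++ L2).length + 1 := by rw [hLd]; simp; omega
  have hmemL : ∀ x, x ∈ L ↔ x ∈ L1 ++ L2 ∨ x = M := by
    intro x; rw [hLd]; simp only [List.mem_append, List.mem_cons]; tauto
  have hM : ∀ x ∈ L1 ++ L2, x < M := by
    intro x hx
    rcases List.mem_append.1 hx with hx | hx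
    · exact h1 x hx
    · exact h2 x hx
  have hML : M ∈ L := (hmemL M).2 (Or.inr rfl)
  have hlt : ∀ x ∈ L1 ++ L2, ∀ y ∈ R, x < y := by
    intro x hx y hy
    have hne : x ≠ y := hn.2.2 x ((hmemL x).2 (Or.inl hx)) y (List.mem_cons_of_mem _ hy)
    by_contra hcon
    refine hav y x M ?_ (by omega) (hM x hx)
    rw [hsL]
    refine List.Sublist.trans ?_ (List.sublist_append_left _ _)
    have e1 : [x].Sublist (s L1 ++ s L2) :=
      List.singleton_sublist.2 ((p1.append p2).mem_iff.2 hx)
    exact (e1.append (List.Sublist.refl [M])).append (List.singleton_sublist.2 (pR.mem_iff.2 hy))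
  have hsmall : ∀ x ∈ L1 ++ L2, x + 1 < L.length := by
    intro x hx
    have := le_length_of_mem (l := L1 ++ L2) (y := x + 1) fun v hv => by
      have hxL := hL x ((hmemL x).2 (Or.inl hx))
      have hv' := hstd.mem (x := v) (by simp; omega)
      rcases List.mem_append.1 hv' with hv' | hv'
      · rcases (hmemL v).1 hv' with hv' | rfl
        · exact hv'
        · have := hM x hx; omega
      · rcases List.mem_cons.1 hv' with hv' | hv'
        · omega
        · have := hlt x hx v hv'; omega
    omega
  have hMbig : L.length - 1 ≤ M := by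
    have := length_le_of_lt hn12 hM; omega
  have hRbig : ∀ y ∈ R, L.length - 1 ≤ y := fun y hy => by
    have := length_le_of_lt hn12 fun x hx => hlt x hx y hy; omega
  have hRM : ∀ y ∈ R, y ≠ M := fun y hy h =>
    hn.2.2 M hML y (List.mem_cons_of_mem _ hy) h.symm
  have hMm := hL M hML
  have hLpos : 0 < L.length := List.length_pos_iff.2 hLne
  set a := L.length with ha
  set p := M - (a - 1) with hp
  set L0 := L.map fun x => min x (a - 1) with hL0
  set R0 := R.map fun y => if y < M then y - (a - 1) else y - a with hR0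
  have lL : L0.length = a := by simp [hL0, ha]
  have lR : R0.length = R.length := by simp [hR0]
  have eL : L0.map (phiL a p) = L := by
    rw [hL0, List.map_map]
    conv_rhs => rw [← List.map_id L]
    apply List.map_congr_left
    intro x hx
    simp only [Function.comp, phiL, id]
    rcases (hmemL x).1 hx with hx | rfl
    · have := hsmall x hx
      split_ifs <;> omega
    · split_ifs <;> omega
  have eR : R0.map (phiR a p) = R := by
    rw [hR0, List.map_map]
    conv_rhs => rw [← List.map_id R]
    apply List.map_congr_left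
    intro y hy
    have := hRbig y hy
    have := hRM y hy
    simp only [Function.comp, phiR, id]
    split_ifs <;> omega
  have nL : L0.Nodup := List.Nodup.of_map (phiL a p) (eL ▸ hn.1)
  have nR : R0.Nodup := List.Nodup.of_map (phiR a p) (eR ▸ hnR)
  have sL : s L = (s L0).map (phiL a p) := by rw [← hs.map (phiL_mono a p) _ nL, eL]
  have sR : s R = (s R0).map (phiR a p) := by rw [← hs.map (phiR_mono a p) _ nR, eR]
  refine ⟨L0, R0, p, ⟨?_, ⟨nL, ?_⟩, Av.of_map (phiL_mono a p) (sL ▸ avL)⟩,
    ⟨?_, ⟨nR, ?_⟩, Av.of_map (phiR_mono a p) (sR ▸ avR)⟩, by omega, ?_, ?_⟩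
  · simpa [hL0] using hLne
  · intro x hx
    obtain ⟨y, -, rfl⟩ := List.mem_map.1 hx
    omega
  · simpa [hR0] using hRne
  · intro x hx
    obtain ⟨y, hy, rfl⟩ := List.mem_map.1 hx
    have := hR y hy
    have := hRbig y hy
    have := hRM y hy
    have := List.length_pos_iff.2 hRne
    split_ifs <;> omega
  · unfold Cut
    rw [List.pairwise_iff_forall_sublist]
    rintro c d hcd ⟨h3, h4⟩
    refine hav (phiR a p d) M (phiR a p c) ?_ ?_ ?_
    · refine List.Sublist.trans ?_ (List.sublist_append_left _ _)
      have e1 : [M].Sublist (s L) := by rw [hsL]; exact List.sublist_append_right _ _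
      have e2 := hcd.map (phiR a p)
      rw [← sR] at e2
      exact e1.append e2
    · unfold phiR; split_ifs <;> omega
    · unfold phiR; split_ifs <;> omega
  · rw [build, lL, lR, eL, eR]

theorem comp_top (τ : List ℕ) (n : ℕ) (h : ∀ x ∈ τ, x < n) :
    (∑ y ∈ range (n + 1), if Cut (τ ++ [n]) y then 1 else 0) =
      (∑ y ∈ range n, if Cut τ y then 1 else 0) + 1 := by
  have key : ∀ y ≤ n, (Cut (τ ++ [n]) y ↔ Cut τ y) := by
    intro y hy
    unfold Cut
    rw [List.pairwise_append]
    refine ⟨fun h => h.1, fun h => ⟨h, by simp, fun a _ b hb => ?_⟩⟩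
    rw [List.mem_singleton.1 hb]
    omega
  rw [sum_range_succ, if_pos]
  · congr 1
    exact sum_congr rfl fun y hy => if_congr (key y (mem_range.1 hy).le) rfl rfl
  · rw [key n le_rfl]
    exact List.pairwise_of_forall_mem_list fun a ha b _ => by have := h a ha; omega

theorem Std.sort_lt (hs : IsSort s) {L : List ℕ} (h : Std L) : ∀ x ∈ s L, x < L.length :=
  fun x hx => h.2 x ((hs.perm L h.1).mem_iff.1 hx)

theorem Std.nodup_snoc {L : List ℕ} (h : Std L) : (L ++ [L.length]).Nodup := by
  rw [List.nodup_append]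
  refine ⟨h.1, by simp, fun a ha b hb => ?_⟩
  rw [List.mem_singleton.1 hb]
  exact (h.2 a ha).ne

theorem comp_snoc (hs : IsSort s) {L : List ℕ} (h : Std L) :
    comp s (L ++ [L.length]) = comp s L + 1 := by
  unfold comp
  rw [hs.step L [] _ h.nodup_snoc h.2 (by simp), hs.nil, List.append_nil, List.length_append,
    List.length_singleton, comp_top _ _ (h.sort_lt hs)]

theorem comp_cons (hs : IsSort s) {R : List ℕ} (h : Std R) :
    comp s (R.length :: R) = comp s R + 1 := by
  unfold comp
  have := hs.step [] R R.length (List.nodup_cons.2 ⟨fun h' => lt_irrefl _ (h.2 _ h'), h.1⟩)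
    (by simp) h.2
  rw [List.nil_append] at this
  rw [this, hs.nil, List.nil_append, List.length_cons, comp_top _ _ (h.sort_lt hs)]

theorem Ft_eq {σ : List ℕ} (h : Std σ) {φ : ℕ → ℕ} (hφ : StrictMono φ) {N : ℕ}
    (hN : ∀ x ∈ σ, φ x ≤ N) (l : ℕ) : F (σ.map φ ++ List.replicate l N) = Ft σ l :=
  F_map σ φ hφ l _ _ (fun x hx => (h.2 x hx).le) hN

theorem Ft_eq' {σ : List ℕ} (h : Std σ) {N : ℕ} (hN : σ.length ≤ N) (l : ℕ) :
    F (σ ++ List.replicate l N) = Ft σ l := by
  have := Ft_eq h strictMono_id (N := N) (fun x hx => (h.2 x hx).le.trans hN) l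
  rwa [List.map_id] at this

theorem Ft_snoc {L : List ℕ} (h : Std L) (l : ℕ) : Ft (L ++ [L.length]) l = Ft L (l + 1) := by
  rw [Ft, List.append_assoc, List.singleton_append,
    F_top _ _ _ _ (fun x hx => (h.2 x hx).le) (by simp), Ft_eq' h (by simp)]

theorem Ft_cons {R : List ℕ} (h : Std R) (hne : R ≠ []) (l : ℕ) :
    Ft (R.length :: R) l = ∑ j ∈ range l, catalan (l - j) * Ft R j := by
  have := F_decomp (R.length + 1) R.length [] R hne h.2 (by simp) (by simp) l
  rw [List.nil_append] at this
  rw [Ft, List.length_cons, this]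
  refine sum_congr rfl fun j _ => ?_
  rw [List.nil_append, F_replicate, Ft_eq' h (by simp)]

theorem length_build (L R : List ℕ) (p : ℕ) : (build L R p).length = L.length + R.length + 1 := by
  simp [build]; omega

theorem Ft_build {L R : List ℕ} (hL : Std L) (hR : Std R) (hne : R ≠ []) {p : ℕ}
    (hp : p < R.length + 1) (l : ℕ) :
    Ft (build L R p) l = ∑ j ∈ range l, Ft L (l - j) * Ft R j := by
  have b1 : ∀ x ∈ L, phiL L.length p x ≤ L.length + R.length := fun x hx => by
    have := hL.2 x hx
    unfold phiL; split_ifs <;> omega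
  have b2 : ∀ x ∈ R, phiR L.length p x < L.length + R.length := fun x hx => by
    have := hR.2 x hx
    unfold phiR; split_ifs <;> omega
  rw [Ft, length_build, build, F_decomp _ _ _ _ (by simpa using hne) (List.forall_mem_map.2 b2)
    (by omega) (List.forall_mem_map.2 b1)]
  refine sum_congr rfl fun j _ => ?_
  rw [Ft_eq hL (phiL_mono _ _) fun x hx => (b1 x hx).trans (by omega),
    Ft_eq hR (phiR_mono _ _) fun x hx => (b2 x hx).le.trans (by omega)]

theorem comp_build (hs : IsSort s) {L R : List ℕ} (hL : Std L) (hLne : L ≠ []) (hR : Std R)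
    (hne : R ≠ []) {p : ℕ} (hp : p < R.length + 1) :
    comp s (build L R p) = comp s L + cnt (s R) (R.length + 1) p := by
  have hLpos : 0 < L.length := List.length_pos_iff.2 hLne
  have hRpos : 0 < R.length := List.length_pos_iff.2 hne
  have b1 : ∀ x ∈ L, phiL L.length p x < L.length + R.length := fun x hx => by
    have := hL.2 x hx
    unfold phiL; split_ifs <;> omega
  have b2 : ∀ x ∈ R, phiR L.length p x < L.length + R.length := fun x hx => by
    have := hR.2 x hx
    unfold phiR; split_ifs <;> omega
  have hn : (build L R p).Nodup := by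
    rw [build, List.nodup_append, List.nodup_cons]
    refine ⟨hL.1.map (phiL_mono _ _).injective, ⟨fun h => ?_, hR.1.map (phiR_mono _ _).injective⟩,
      fun x hx y hy => ?_⟩
    · obtain ⟨x, hx, h⟩ := List.mem_map.1 h
      have := b2 x hx
      omega
    · obtain ⟨x, hx', rfl⟩ := List.mem_map.1 hx
      rcases List.mem_cons.1 hy with rfl | hy
      · exact (b1 x hx').ne
      · obtain ⟨y, -, rfl⟩ := List.mem_map.1 hy
        have := hL.2 x hx'
        unfold phiL phiR
        split_ifs <;> omega
  have hsb : s (build L R p) = (s L).map (phiL L.length p) ++ (s R).map (phiR L.length p) ++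
      [L.length + R.length] := by
    rw [build, hs.step _ _ _ hn (List.forall_mem_map.2 b1) (List.forall_mem_map.2 b2),
      hs.map (phiL_mono _ _) _ hL.1, hs.map (phiR_mono _ _) _ hR.1]
  have tL := hL.sort_lt hs
  have tR := hR.sort_lt hs
  have hML : L.length - 1 ∈ s L := (hs.perm L hL.1).mem_iff.2 (hL.mem (by omega))
  have h0R : 0 ∈ s R := (hs.perm R hR.1).mem_iff.2 (hR.mem hRpos)
  have hlast : (s L).Pairwise fun c _ => c + 1 < L.length := by
    obtain ⟨L1, L2, e, h1, h2⟩ := hL.decomp hLne
    have hnL := hL.1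
    have hlen : L.length = L1.length + L2.length + 1 := by rw [e]; simp; omega
    rw [e] at hnL
    have hn1 := List.nodup_append.1 hnL
    have e' : s L = s L1 ++ s L2 ++ [L1.length + L2.length] := by
      conv_lhs => rw [e]
      exact hs.step _ _ _ hnL h1 h2
    have hb : ∀ x ∈ s L1 ++ s L2, x + 1 < L.length := by
      intro x hx
      rcases List.mem_append.1 hx with hx | hx
      · have := h1 x ((hs.perm _ hn1.1).mem_iff.1 hx); omega
      · have := h2 x ((hs.perm _ (List.nodup_cons.1 hn1.2.1).2).mem_iff.1 hx); omega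
    rw [e', List.pairwise_append]
    exact ⟨List.pairwise_of_forall_mem_list fun a ha b _ => hb a ha, by simp,
      fun a ha b _ => hb a ha⟩
  unfold comp cnt
  rw [length_build, add_assoc, sum_range_add, hsb]
  congr 1
  · refine sum_congr rfl fun y hy => if_congr ?_ rfl rfl
    have hy' := mem_range.1 hy
    unfold Cut
    rw [List.pairwise_append, List.pairwise_append, List.pairwise_map, List.pairwise_map]
    constructor
    · intro h
      refine h.1.1.imp ?_
      intro c d h
      unfold phiL at h
      split_ifs at h <;> omega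
    · intro h
      refine ⟨⟨h.imp ?_, List.pairwise_of_forall ?_, ?_⟩, by simp, ?_⟩
      · intro c d h
        unfold phiL
        split_ifs <;> omega
      · intro c d
        unfold phiR
        split_ifs <;> omega
      · intro c _ d hd
        obtain ⟨d, -, rfl⟩ := List.mem_map.1 hd
        unfold phiR
        split_ifs <;> omega
      · intro c _ d hd
        rw [List.mem_singleton.1 hd]
        omega
  · refine sum_congr rfl fun q hq => if_congr ?_ rfl rfl
    have hq' := mem_range.1 hq
    unfold Cut
    rw [List.pairwise_append, List.pairwise_append, List.pairwise_map, List.pairwise_map]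
    constructor
    · intro h
      have h1 := h.1.2.2 _ (List.mem_map_of_mem hML) _ (List.mem_map_of_mem h0R)
      have hpq : p ≤ q := by
        unfold phiL phiR at h1
        split_ifs at h1 <;> omega
      refine ⟨hpq, h.1.2.1.imp ?_⟩
      intro c d h
      unfold phiR at h
      split_ifs at h <;> omega
    · rintro ⟨hpq, h⟩
      refine ⟨⟨hlast.imp ?_, h.imp ?_, ?_⟩, by simp, ?_⟩
      · intro c d h
        unfold phiL
        split_ifs <;> omega
      · intro c d h
        unfold phiR
        split_ifs <;> omega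
      · intro c hc d _
        obtain ⟨c, hc', rfl⟩ := List.mem_map.1 hc
        have := tL c hc'
        unfold phiL
        split_ifs <;> omega
      · intro c _ d hd
        rw [List.mem_singleton.1 hd]
        omega

theorem cnt_lt {τ : List ℕ} {n p p' : ℕ} (hp : p < n) (hc : Cut τ p) (h : p < p') :
    cnt τ n p' < cnt τ n p := by
  unfold cnt
  apply sum_lt_sum
  · intro q _
    split_ifs with h1 h2
    · exact le_rfl
    · exact absurd ⟨by omega, h1.2⟩ h2
    · exact zero_le_one
    · exact le_rfl
  · refine ⟨p, mem_range.2 hp, ?_⟩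
    rw [if_neg (by omega), if_pos ⟨le_rfl, hc⟩]
    exact zero_lt_one

theorem cnt_le (R : List ℕ) (p : ℕ) : cnt (s R) (R.length + 1) p ≤ comp s R + 1 := by
  unfold cnt comp
  rw [sum_range_succ]
  refine add_le_add (sum_le_sum fun q _ => ?_) (by split_ifs <;> omega)
  split_ifs with h1 h2
  · exact le_rfl
  · exact absurd h1.2 h2
  · exact zero_le_one
  · exact le_rfl

end Pool.Agent.H786Z.St3
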